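import Mathlib

/-!
A nonnegative continuous function on the unit circle is, up to a small error, the modulus of a
polynomial.
-/

set_option autoImplicit false

namespace H731SI

open MeasureTheory Complex Filter Topology Metric

instance fact2pi : Fact ((0:ℝ) < 2 * Real.pi) := ⟨by positivity⟩

theorem exists_poly {g : ℂ → ℝ} (hg : ContinuousOn g (sphere 0 1)) (hg0 : ∀ z, 0 ≤ g z)
    {ε : ℝ} (hε : 0 < ε) :
    ∃ c : Polynomial ℂ, ∀ z : ℂ, ‖z‖ = 1 → |‖c.eval z‖ - g z| ≤ ε := by
  set φ : AddCircle (2 * Real.pi) → ℂ := fun t => (AddCircle.toCircle t : ℂ) with hφ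
  have hφc : Continuous φ := by
    simp only [hφ]
    exact continuous_subtype_val.comp AddCircle.continuous_toCircle
  have hφ1 : ∀ t, ‖φ t‖ = 1 := fun t => Circle.norm_coe _
  have hGc : Continuous fun t => (g (φ t) : ℂ) := by
    apply Complex.continuous_ofReal.comp
    exact hg.comp_continuous hφc (fun t => by rw [mem_sphere_zero_iff_norm]; exact hφ1 t)
  set G : C(AddCircle (2 * Real.pi), ℂ) := ⟨fun t => (g (φ t) : ℂ), hGc⟩ with hG
  have hmem : G ∈ (Submodule.span ℂ (Set.range (@fourier (2 * Real.pi)))).topologicalClosure := by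
    rw [span_fourier_closure_eq_top]
    trivial
  rw [← SetLike.mem_coe, Submodule.topologicalClosure_coe, Metric.mem_closure_iff] at hmem
  obtain ⟨F, hF, hd⟩ := hmem ε hε
  obtain ⟨a, ha⟩ := (Finsupp.mem_span_range_iff_exists_finsupp).mp hF
  obtain ⟨d, hd'⟩ : ∃ d : ℕ, ∀ n ∈ a.support, 0 ≤ n + d := by
    refine ⟨∑ n ∈ a.support, n.natAbs, fun n hn => ?_⟩
    have h1 : n.natAbs ≤ ∑ n ∈ a.support, n.natAbs :=
      Finset.single_le_sum (f := fun n : ℤ => n.natAbs) (fun _ _ => Nat.zero_le _) hn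
    have h2 : (n.natAbs : ℤ) ≤ (∑ n ∈ a.support, n.natAbs : ℕ) := by exact_mod_cast h1
    have h3 : -n ≤ (n.natAbs : ℤ) := by omega
    linarith
  refine ⟨∑ n ∈ a.support, Polynomial.C (a n) * Polynomial.X ^ (n + d).toNat, fun z hz => ?_⟩
  set t : AddCircle (2 * Real.pi) := ((arg z : ℝ) : AddCircle (2 * Real.pi)) with ht
  have hzt : φ t = z := by
    simp only [hφ, ht]
    rw [AddCircle.toCircle_apply_mk, Circle.coe_exp]
    have h1 : (2 * Real.pi / (2 * Real.pi) * arg z : ℝ) = arg z := by field_simp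
    rw [h1]
    have := Complex.norm_mul_exp_arg_mul_I z
    rw [hz] at this
    simpa using this
  have hz0 : z ≠ 0 := by
    intro h
    rw [h, norm_zero] at hz
    exact zero_ne_one hz
  have hFt : F t = ∑ n ∈ a.support, a n * z ^ n := by
    rw [← ha, Finsupp.sum, ContinuousMap.coe_sum, Finset.sum_apply]
    refine Finset.sum_congr rfl fun n _ => ?_
    rw [ContinuousMap.coe_smul, Pi.smul_apply, smul_eq_mul, fourier_apply]
    congr 1
    rw [← hzt]
    simp only [hφ]
    rw [AddCircle.toCircle_zsmul]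
    push_cast
    rfl
  have hev : (∑ n ∈ a.support, Polynomial.C (a n) * Polynomial.X ^ (n + d).toNat).eval z =
      z ^ d * F t := by
    rw [hFt, Polynomial.eval_finsetSum, Finset.mul_sum]
    refine Finset.sum_congr rfl fun n hn => ?_
    rw [Polynomial.eval_mul, Polynomial.eval_C, Polynomial.eval_pow, Polynomial.eval_X]
    have h1 : z ^ (n + d).toNat = z ^ n * z ^ d := by
      rw [← zpow_natCast, Int.toNat_of_nonneg (hd' n hn), zpow_add₀ hz0, zpow_natCast]
    rw [h1]
    ring
  rw [hev, norm_mul, norm_pow, hz, one_pow, one_mul]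
  have h2 : g z = ‖G t‖ := by
    simp only [hG, ContinuousMap.coe_mk]
    rw [Complex.norm_real, Real.norm_eq_abs, abs_of_nonneg (hg0 _), hzt]
  rw [h2]
  refine (abs_norm_sub_norm_le _ _).trans ?_
  have h3 : dist (G t) (F t) ≤ dist G F := ContinuousMap.dist_apply_le_dist t
  rw [← dist_eq_norm, dist_comm]
  linarith

end H731SI
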