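import Pool.Agent.H731_SI.Limit

/-!
The limit function has modulus one on the circle, in the mean.
-/

set_option autoImplicit false

namespace H731SI

open MeasureTheory Complex Filter Topology Metric H731Dp Polynomial
open scoped ENNReal

/-- lower bound of the decrease in the middle range -/
noncomputable def v0 (m : ℕ) (η : ℝ) : ℝ := √η / (16 * (1 + 1 / η) ^ (2 * m))

theorem v0_pos (m : ℕ) {η : ℝ} (hη : 0 < η) : 0 < v0 m η := by
  unfold v0
  have := Real.sqrt_pos.mpr hη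
  positivity

theorem mid_bound {m : ℕ} {η y x : ℝ} (hη : 0 < η) (h1 : η ≤ y) (h2 : y ≤ 1 / η)
    (hx : ss m y / 2 ≤ x) : v0 m η ≤ x ^ 2 / (y * √y) := by
  have hy : 0 < y := by linarith
  have hsy := Real.sqrt_pos.mpr hy
  have hs0 : 0 < ss m y / 2 := by unfold ss; positivity
  calc v0 m η ≤ √y / (16 * (1 + y) ^ (2 * m)) := by
        unfold v0
        gcongr
    _ = (ss m y / 2) ^ 2 / (y * √y) := by
        unfold ss
        rw [pow_mul']
        have h3 : √y * √y = y := Real.mul_self_sqrt hy.le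
        field_simp
        rw [Real.sq_sqrt hy.le]
        ring
    _ ≤ x ^ 2 / (y * √y) := by gcongr

theorem pt_bound {m : ℕ} {η y x w δ : ℝ} (hη : 0 < η) (hy : 0 < y) (hδ : 0 ≤ δ)
    (hw : w ≤ y + δ) (hx : ss m y / 2 ≤ x) :
    1 - Real.exp (-(2 * w)) ≤ 2 * η + 2 * δ + η * y + x ^ 2 / (y * √y) / v0 m η := by
  have hv := v0_pos m hη
  have hv2 : 0 ≤ x ^ 2 / (y * √y) / v0 m η := by positivity
  have h1 : 1 - Real.exp (-(2 * w)) ≤ 1 := by linarith [Real.exp_pos (-(2 * w))]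
  rcases le_or_gt y η with h | h
  · have := Real.add_one_le_exp (-(2 * w))
    have : 0 ≤ η * y := by positivity
    linarith
  · rcases le_or_gt y (1 / η) with h' | h'
    · have h3 : 1 ≤ x ^ 2 / (y * √y) / v0 m η := by
        rw [le_div_iff₀ hv, one_mul]
        exact mid_bound hη h.le h' hx
      have : 0 ≤ η * y := by positivity
      linarith
    · have h3 : 1 ≤ η * y := by
        rw [div_lt_iff₀ hη] at h'
        linarith
      linarith

namespace Data

variable {p q : ℝ} {m : ℕ} (D : Data p q m)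

theorem norm_RE (n : ℕ) (θ : ℝ) : ‖(D.R n : ℂ) * exp (θ * I)‖ = D.R n := by
  rw [norm_mul, norm_E, mul_one, Complex.norm_real, Real.norm_eq_abs, abs_of_pos (D.R_pos n)]

theorem RE_mem (n : ℕ) (θ : ℝ) : (D.R n : ℂ) * exp (θ * I) ∈ ball (0:ℂ) 1 := by
  rw [mem_ball_zero_iff, norm_RE]
  exact D.R_lt n

theorem re_H_le (hm1 : 1 ≤ m) (n : ℕ) (θ : ℝ) : (D.H (D.R n * exp (θ * I))).re ≤
    ((D.hh n).eval (exp (θ * I))).re + 2 * (1 / 2) ^ n := by
  have h1 := D.H_dist hm1 (k := n) (D.norm_RE n θ).le le_rfl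
  have h2 := D.hdil n _ (norm_E θ)
  rw [dist_comm, dist_eq_norm] at h1
  have h3 := (abs_le.mp (Complex.abs_re_le_norm (D.H (D.R n * exp (θ * I)) -
    (D.hh n).eval (D.R n * exp (θ * I))))).2
  have h4 := (abs_le.mp (Complex.abs_re_le_norm ((D.s n).1.1.eval ((D.s (n + 1)).2.1 *
    exp (θ * I)) - (D.s n).1.1.eval (exp (θ * I))))).2
  rw [Complex.sub_re] at h3 h4
  unfold hh R at *
  linarith

theorem mean_bound (hm1 : 1 ≤ m) {η : ℝ} (hη : 0 < η) (n : ℕ) :
    ∫ θ in (-Real.pi)..Real.pi, (1 - ‖exp (-(D.H (D.R n * exp (θ * I))))‖ ^ 2) ≤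
      6 * Real.pi * η + (8 * Real.pi * (1 / 2) ^ n + Aq (D.hh n) (D.c n) / v0 m η) := by
  have hpi : -Real.pi ≤ Real.pi := by linarith [Real.pi_pos]
  have hre : Continuous fun θ : ℝ => ((D.hh n).eval (exp (θ * I))).re :=
    Complex.continuous_re.comp (by fun_prop)
  have hAc : Continuous fun θ : ℝ => ‖(D.c n).eval (exp (θ * I))‖ ^ 2 /
      (((D.hh n).eval (exp (θ * I))).re * √(((D.hh n).eval (exp (θ * I))).re)) := by
    apply Continuous.div (by fun_prop) (by fun_prop)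
    intro θ
    have := D.pos n (norm_E θ)
    positivity
  have hHc : Continuous fun θ : ℝ => D.H (D.R n * exp (θ * I)) :=
    (D.H_diff hm1).continuousOn.comp_continuous (by fun_prop) (D.RE_mem n)
  have hL : Continuous fun θ : ℝ => 1 - ‖exp (-(D.H (D.R n * exp (θ * I))))‖ ^ 2 := by fun_prop
  have i1 : IntervalIntegrable (fun _ : ℝ => 2 * η + 2 * (2 * (1 / 2 : ℝ) ^ n)) volume
      (-Real.pi) Real.pi := continuous_const.intervalIntegrable _ _
  have i2 : IntervalIntegrable (fun θ : ℝ => η * ((D.hh n).eval (exp (θ * I))).re) volume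
      (-Real.pi) Real.pi := (hre.const_mul η).intervalIntegrable _ _
  have i12 : IntervalIntegrable (fun θ : ℝ => 2 * η + 2 * (2 * (1 / 2 : ℝ) ^ n) +
      η * ((D.hh n).eval (exp (θ * I))).re) volume (-Real.pi) Real.pi := i1.add i2
  have i3 : IntervalIntegrable (fun θ : ℝ => ‖(D.c n).eval (exp (θ * I))‖ ^ 2 /
      (((D.hh n).eval (exp (θ * I))).re * √(((D.hh n).eval (exp (θ * I))).re)) / v0 m η) volume
      (-Real.pi) Real.pi := (hAc.div_const _).intervalIntegrable _ _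
  have i4 : IntervalIntegrable (fun θ : ℝ => 2 * η + 2 * (2 * (1 / 2 : ℝ) ^ n) +
      η * ((D.hh n).eval (exp (θ * I))).re + ‖(D.c n).eval (exp (θ * I))‖ ^ 2 /
      (((D.hh n).eval (exp (θ * I))).re * √(((D.hh n).eval (exp (θ * I))).re)) / v0 m η) volume
      (-Real.pi) Real.pi := i12.add i3
  have h1 := intervalIntegral.integral_mono_on hpi (hL.intervalIntegrable _ _) i4 (by
    intro θ _
    have e : ‖exp (-(D.H (D.R n * exp (θ * I))))‖ ^ 2 =
        Real.exp (-(2 * (D.H (D.R n * exp (θ * I))).re)) := by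
      rw [Complex.norm_exp, ← Real.exp_nat_mul, Complex.neg_re]
      congr 1
      push_cast
      ring
    rw [e]
    exact pt_bound hη (D.pos n (norm_E θ)) (by positivity) (D.re_H_le hm1 n θ)
      (D.hc n _ (norm_E θ)).1)
  refine h1.trans (le_of_eq ?_)
  rw [intervalIntegral.integral_add i12 i3, intervalIntegral.integral_add i1 i2,
    intervalIntegral.integral_const, intervalIntegral.integral_const_mul, mean_re, D.hh_zero,
    intervalIntegral.integral_div]
  unfold Aq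
  simp only [Complex.one_re, smul_eq_mul]
  ring

theorem mean_tendsto (hm1 : 1 ≤ m) : Tendsto (fun n => ∫ θ in (-Real.pi)..Real.pi,
    (1 - ‖exp (-(D.H (D.R n * exp (θ * I))))‖ ^ 2)) atTop (𝓝 0) := by
  have hnn : ∀ n, 0 ≤ ∫ θ in (-Real.pi)..Real.pi,
      (1 - ‖exp (-(D.H (D.R n * exp (θ * I))))‖ ^ 2) := by
    intro n
    apply intervalIntegral.integral_nonneg (by linarith [Real.pi_pos])
    intro θ _
    have h1 : ‖exp (-(D.H (D.R n * exp (θ * I))))‖ ≤ 1 := by
      rw [Complex.norm_exp, Real.exp_le_one_iff, Complex.neg_re]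
      linarith [D.H_re hm1 (D.RE_mem n θ)]
    have := pow_le_one₀ (n := 2) (norm_nonneg _) h1
    linarith
  rw [Metric.tendsto_atTop]
  intro ε hε
  have hpi := Real.pi_pos
  set η : ℝ := ε / (12 * Real.pi) / 2 with hη
  have hη0 : 0 < η := by positivity
  have h1 : Tendsto (fun n : ℕ => 8 * Real.pi * (1 / 2 : ℝ) ^ n +
      Aq (D.hh n) (D.c n) / v0 m η) atTop (𝓝 (8 * Real.pi * 0 + 0 / v0 m η)) :=
    ((tendsto_pow_atTop_nhds_zero_of_lt_one (by norm_num) (by norm_num)).const_mul _).add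
      (D.A_tendsto.div_const _)
  simp only [mul_zero, zero_div, add_zero] at h1
  have h2 := (Metric.tendsto_atTop.mp h1 (ε / 2) (by positivity))
  obtain ⟨N, hN⟩ := h2
  refine ⟨N, fun n hn => ?_⟩
  have h3 := hN n hn
  rw [Real.dist_eq, sub_zero] at h3 ⊢
  rw [abs_of_nonneg (hnn n)]
  have h4 := D.mean_bound hm1 hη0 n
  have h5 := (abs_lt.mp h3).2
  have h6 : 6 * Real.pi * η = ε / 4 := by
    rw [hη]
    field_simp
    ring
  linarith

end Data

/-- **The function.** -/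
theorem exists_fun {p q : ℝ} (hp : 2 < p) (hq1 : 1 < q) (hq2 : q < 2) :
    ∃ H : ℂ → ℂ, DifferentiableOn ℂ H (ball 0 1) ∧ (∀ z ∈ ball (0:ℂ) 1, 0 ≤ (H z).re) ∧ H 0 = 1 ∧
      Dn p H < ⊤ ∧ Dn q (fun z => exp (-(H z))) < ⊤ ∧
      ∃ ρ : ℕ → ℝ, (∀ n, 0 < ρ n ∧ ρ n < 1) ∧ Tendsto ρ atTop (𝓝 1) ∧
        Tendsto (fun n => ∫ θ in (-Real.pi)..Real.pi,
          (1 - ‖exp (-(H (ρ n * exp (θ * I))))‖ ^ 2)) atTop (𝓝 0) := by
  obtain ⟨m, hm⟩ := exists_nat_ge (3 / 2 / (p - 2) + 1)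
  have hp2 : 0 < p - 2 := by linarith
  have hm' : 3 / 2 ≤ ((m : ℝ) - 1) * (p - 2) := by
    rw [← div_le_iff₀ hp2]
    linarith
  have hm1 : 1 ≤ m := by
    have : (1:ℝ) ≤ m := by
      have : 0 < 3 / 2 / (p - 2) := by positivity
      linarith
    exact_mod_cast this
  obtain ⟨D⟩ := exists_data hp hq1 hq2 hm1 hm'
  exact ⟨D.H, D.H_diff hm1, fun z hz => D.H_re hm1 hz, D.H_zero hm1, D.H_Dp hp hm1,
    D.H_Dq hq1 hm1, D.R, fun n => ⟨D.R_pos n, D.R_lt n⟩, D.R_tendsto, D.mean_tendsto hm1⟩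

end H731SI
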