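import Pool.Agent.H731_Dp.LP
import Pool.Agent.H731_SI.Inner

/-!
The bilinear Littlewood-Paley identity on the disc.
-/

set_option autoImplicit false

namespace H731SI

open MeasureTheory Complex Filter Topology Metric H731Dp
open scoped ENNReal ComplexConjugate

theorem int_exp (n k : ℕ) : ∫ θ in (-Real.pi)..Real.pi,
    exp (θ * I) ^ k * conj (exp (θ * I) ^ n) = if k = n then (2 * Real.pi : ℂ) else 0 := by
  have e : ∀ θ : ℝ, exp (θ * I) ^ k * conj (exp (θ * I) ^ n) =
      exp ((((k:ℤ) - n : ℤ) * I) * θ) := by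
    intro θ
    rw [← Complex.exp_nat_mul, ← Complex.exp_nat_mul, ← Complex.exp_conj, ← Complex.exp_add]
    congr 1
    simp only [map_mul, Complex.conj_natCast, Complex.conj_ofReal, Complex.conj_I]
    push_cast
    ring
  simp_rw [e]
  split_ifs with h
  · subst h
    simp only [sub_self, Int.cast_zero, zero_mul, Complex.exp_zero,
      intervalIntegral.integral_const]
    rw [Complex.real_smul]
    push_cast
    ring
  · have hc : ((((k:ℤ) - n : ℤ) : ℂ) * I) ≠ 0 := by
      apply mul_ne_zero _ Complex.I_ne_zero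
      rw [Int.cast_ne_zero]
      omega
    rw [integral_exp_mul_complex hc, div_eq_zero_iff]
    left
    rw [sub_eq_zero, Complex.exp_eq_exp_iff_exists_int]
    refine ⟨(k:ℤ) - n, ?_⟩
    push_cast
    ring

/-- Fourier coefficients of a power series -/
theorem int_coeff {b : ℕ → ℂ} {h : ℂ → ℂ} {t : ℝ} (ht : 0 ≤ t)
    (hs : Summable fun k => ‖b k‖ * t ^ k)
    (hh : ∀ z : ℂ, ‖z‖ = t → HasSum (fun k => b k * z ^ k) (h z)) (n : ℕ) :
    ∫ θ in (-Real.pi)..Real.pi, h (t * exp (θ * I)) * conj (exp (θ * I) ^ n) =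
      2 * Real.pi * (b n * t ^ n) := by
  have hn : ∀ θ : ℝ, ‖(t:ℂ) * exp (θ * I)‖ = t := by
    intro θ
    rw [norm_mul, Complex.norm_exp_ofReal_mul_I, mul_one, Complex.norm_real,
      Real.norm_eq_abs, abs_of_nonneg ht]
  have key := intervalIntegral.hasSum_integral_of_dominated_convergence (μ := volume)
    (a := -Real.pi) (b := Real.pi)
    (F := fun k (θ : ℝ) => (b k * t ^ k) * (exp (θ * I) ^ k * conj (exp (θ * I) ^ n)))
    (f := fun θ => h (t * exp (θ * I)) * conj (exp (θ * I) ^ n))
    (fun k _ => ‖b k‖ * t ^ k) (fun k => by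
      apply Continuous.aestronglyMeasurable
      exact continuous_const.mul (by fun_prop)) (fun k => Eventually.of_forall fun θ _ => by
        rw [norm_mul, norm_mul, norm_mul, RCLike.norm_conj, norm_pow, norm_pow, norm_pow,
          Complex.norm_exp_ofReal_mul_I, one_pow, one_pow, mul_one, mul_one, Complex.norm_real,
          Real.norm_eq_abs, abs_of_nonneg ht]) (Eventually.of_forall fun θ _ => hs)
      (continuous_const.intervalIntegrable _ _) (Eventually.of_forall fun θ _ => by
        have h1 := (hh _ (hn θ)).mul_right (conj (exp (θ * I) ^ n))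
        have e : (fun k => (b k * t ^ k) * (exp (θ * I) ^ k * conj (exp (θ * I) ^ n))) =
            fun k => b k * (↑t * exp (↑θ * I)) ^ k * conj (exp (θ * I) ^ n) := by
          funext k
          rw [mul_pow]
          ring
        rw [e]
        exact h1)
  simp_rw [intervalIntegral.integral_const_mul, int_exp] at key
  have h2 : HasSum (fun k => b k * (t:ℂ) ^ k * (if k = n then (2 * Real.pi : ℂ) else 0))
      (b n * t ^ n * (2 * Real.pi : ℂ)) := by
    have := hasSum_single (f := fun k => b k * (t:ℂ) ^ k * (if k = n then (2 * Real.pi : ℂ) else 0))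
      n (fun k hk => by simp [hk])
    simpa using this
  rw [key.unique h2]
  ring

/-- the bilinear Parseval identity -/
theorem bil_parseval {a b : ℕ → ℂ} {g h : ℂ → ℂ} {t : ℝ} (ht : 0 ≤ t)
    (ha : Summable fun k => ‖a k‖ * t ^ k) (hb : Summable fun k => ‖b k‖ * t ^ k)
    (hg : ∀ z : ℂ, ‖z‖ = t → HasSum (fun k => a k * z ^ k) (g z))
    (hh : ∀ z : ℂ, ‖z‖ = t → HasSum (fun k => b k * z ^ k) (h z))
    (hc : Continuous fun θ : ℝ => h (t * exp (θ * I))) :
    HasSum (fun k => 2 * Real.pi * (a k * conj (b k) * t ^ (2 * k)))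
      (∫ θ in (-Real.pi)..Real.pi, g (t * exp (θ * I)) * conj (h (t * exp (θ * I)))) := by
  have hn : ∀ θ : ℝ, ‖(t:ℂ) * exp (θ * I)‖ = t := by
    intro θ
    rw [norm_mul, Complex.norm_exp_ofReal_mul_I, mul_one, Complex.norm_real,
      Real.norm_eq_abs, abs_of_nonneg ht]
  have hB : ∀ θ : ℝ, ‖h (t * exp (θ * I))‖ ≤ ∑' k, ‖b k‖ * t ^ k := by
    intro θ
    rw [← (hh _ (hn θ)).tsum_eq]
    refine (norm_tsum_le_tsum_norm ?_).trans (le_of_eq ?_)
    · simp_rw [norm_mul, norm_pow, hn]
      exact hb
    · simp_rw [norm_mul, norm_pow, hn]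
  have key := intervalIntegral.hasSum_integral_of_dominated_convergence (μ := volume)
    (a := -Real.pi) (b := Real.pi)
    (F := fun k (θ : ℝ) => (a k * t ^ k) * conj (h (t * exp (θ * I)) * conj (exp (θ * I) ^ k)))
    (f := fun θ => g (t * exp (θ * I)) * conj (h (t * exp (θ * I))))
    (fun k _ => ‖a k‖ * t ^ k * ∑' k, ‖b k‖ * t ^ k) (fun k => by
      apply Continuous.aestronglyMeasurable
      refine continuous_const.mul (Complex.continuous_conj.comp (hc.mul ?_))
      fun_prop) (fun k => Eventually.of_forall fun θ _ => by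
        rw [norm_mul, norm_mul, RCLike.norm_conj, norm_mul, RCLike.norm_conj, norm_pow, norm_pow,
          Complex.norm_exp_ofReal_mul_I, one_pow, mul_one, Complex.norm_real,
          Real.norm_eq_abs, abs_of_nonneg ht]
        gcongr
        exact hB θ) (Eventually.of_forall fun θ _ => ha.mul_right _)
      (continuous_const.intervalIntegrable _ _) (Eventually.of_forall fun θ _ => by
        have h1 := (hg _ (hn θ)).mul_right (conj (h (t * exp (θ * I))))
        have e : (fun k => (a k * t ^ k) * conj (h (t * exp (θ * I)) * conj (exp (θ * I) ^ k))) =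
            fun k => a k * (↑t * exp (↑θ * I)) ^ k * conj (h (t * exp (θ * I))) := by
          funext k
          rw [mul_pow, map_mul, Complex.conj_conj]
          ring
        rw [e]
        exact h1)
  have e2 : (fun k => 2 * Real.pi * (a k * conj (b k) * t ^ (2 * k)) : ℕ → ℂ) =
      fun k => ∫ θ in (-Real.pi)..Real.pi, (a k * t ^ k) *
        conj (h (t * exp (θ * I)) * conj (exp (θ * I) ^ k)) := by
    funext k
    rw [intervalIntegral.integral_const_mul]
    have h3 : (∫ θ in (-Real.pi)..Real.pi, conj (h (t * exp (θ * I)) * conj (exp (θ * I) ^ k))) =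
        conj (∫ θ in (-Real.pi)..Real.pi, h (t * exp (θ * I)) * conj (exp (θ * I) ^ k)) := by
      rw [intervalIntegral.intervalIntegral_eq_integral_uIoc,
        intervalIntegral.intervalIntegral_eq_integral_uIoc]
      simp only [Complex.real_smul, map_mul, Complex.conj_ofReal]
      rw [← integral_conj]
      simp only [map_mul]
    rw [h3, int_coeff ht hb hh]
    simp only [map_mul, map_pow, Complex.conj_ofReal, map_ofNat]
    ring
  rw [e2]
  exact key

end H731SI
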