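import Pool.Agent.H731_SI.Bilin

/-!
The bilinear Littlewood-Paley identity on the disc, second part.
-/

set_option autoImplicit false

namespace H731SI

open MeasureTheory Complex Filter Topology Metric H731Dp
open scoped ENNReal ComplexConjugate

/-- the companion of the derivative -/
noncomputable def Vf (v : ℂ → ℂ) (z : ℂ) : ℂ := deriv v z + (v z - v 0) / z

theorem co_summable {g : ℂ → ℂ} (hg : DifferentiableOn ℂ g (ball 0 1)) {t : ℝ} (h0 : 0 ≤ t)
    (h1 : t < 1) : Summable fun k => ‖co g k‖ * t ^ k := by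
  have hs : (t : ℂ) ∈ ball (0:ℂ) 1 := by
    rw [mem_ball_zero_iff, Complex.norm_real, Real.norm_eq_abs, abs_of_nonneg h0]
    exact h1
  have := (co_hasSum hg hs).summable.norm
  simp_rw [norm_mul, norm_pow, Complex.norm_real, Real.norm_eq_abs, abs_of_nonneg h0] at this
  exact this

theorem Vf_hasSum {v : ℂ → ℂ} (hv : DifferentiableOn ℂ v (ball 0 1)) {z : ℂ}
    (hz : z ∈ ball (0:ℂ) 1) (hz0 : z ≠ 0) :
    HasSum (fun k : ℕ => ((k + 2) * co v (k + 1)) * z ^ k) (Vf v z) := by
  have h1 := co_hasSum (hv.deriv isOpen_ball) hz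
  have h2 := (hasSum_nat_add_iff' 1).mpr (co_hasSum hv hz)
  have h3 := h2.div_const z
  have h4 := h1.add h3
  have e : (fun k : ℕ => ((k + 2) * co v (k + 1)) * z ^ k) =
      fun k : ℕ => co (deriv v) k * z ^ k + co v (k + 1) * z ^ (k + 1) / z := by
    funext k
    rw [co_deriv, pow_succ]
    field_simp
    ring
  rw [e]
  simp only [Finset.range_one, Finset.sum_singleton, pow_zero, mul_one, co_zero] at h4
  exact h4

theorem Vf_summable {v : ℂ → ℂ} (hv : DifferentiableOn ℂ v (ball 0 1)) {t : ℝ}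
    (h0 : 0 < t) (h1 : t < 1) : Summable fun k : ℕ => ‖((k:ℂ) + 2) * co v (k + 1)‖ * t ^ k := by
  have hs : (t : ℂ) ∈ ball (0:ℂ) 1 := by
    rw [mem_ball_zero_iff, Complex.norm_real, Real.norm_eq_abs, abs_of_nonneg h0.le]
    exact h1
  have := (Vf_hasSum hv hs (by exact_mod_cast h0.ne')).summable.norm
  simp_rw [norm_mul, norm_pow, Complex.norm_real, Real.norm_eq_abs, abs_of_nonneg h0.le] at this
  simp_rw [norm_mul]
  exact this

theorem rad_int {r : ℝ} (hr : 0 < r) (k : ℕ) : ∫ t in (0:ℝ)..r, (2 * t * (1 - t ^ 2 / r ^ 2)) *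
    t ^ (2 * k) = r ^ (2 * k + 2) / ((k + 1) * (k + 2)) := by
  have e : ∀ t : ℝ, (2 * t * (1 - t ^ 2 / r ^ 2)) * t ^ (2 * k) =
      2 * t ^ (2 * k + 1) - 2 / r ^ 2 * t ^ (2 * k + 3) := by
    intro t
    field_simp
    ring
  simp_rw [e]
  rw [intervalIntegral.integral_sub (by apply Continuous.intervalIntegrable; fun_prop)
    (by apply Continuous.intervalIntegrable; fun_prop), intervalIntegral.integral_const_mul,
    intervalIntegral.integral_const_mul, integral_pow, integral_pow, zero_pow (by omega),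
    zero_pow (by omega)]
  push_cast
  field_simp
  ring

theorem lp_bilinear {u v : ℂ → ℂ} (hu : DifferentiableOn ℂ u (ball 0 1))
    (hv : DifferentiableOn ℂ v (ball 0 1)) {r : ℝ} (hr0 : 0 < r) (hr1 : r < 1) :
    (∫ θ in (-Real.pi)..Real.pi, u (r * exp (θ * I)) * conj (v (r * exp (θ * I)))) -
      2 * Real.pi * (u 0 * conj (v 0)) =
    ∫ t in (0:ℝ)..r, ((2 * t * (1 - t ^ 2 / r ^ 2) : ℝ) : ℂ) *
      ∫ θ in (-Real.pi)..Real.pi, deriv u (t * exp (θ * I)) * conj (Vf v (t * exp (θ * I))) := by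
  have hmem : ∀ t : ℝ, 0 ≤ t → t ≤ r → ∀ z : ℂ, ‖z‖ = t → z ∈ ball (0:ℂ) 1 := by
    intro t ht0 htr z hz
    rw [mem_ball_zero_iff, hz]
    linarith
  have hn : ∀ t : ℝ, 0 ≤ t → ∀ θ : ℝ, ‖(t:ℂ) * exp (θ * I)‖ = t := by
    intro t ht θ
    rw [norm_mul, Complex.norm_exp_ofReal_mul_I, mul_one, Complex.norm_real,
      Real.norm_eq_abs, abs_of_nonneg ht]
  have hd := hu.deriv isOpen_ball
  have hM := bil_parseval hr0.le (co_summable hu hr0.le hr1) (co_summable hv hr0.le hr1)
    (fun z hz => co_hasSum hu (hmem r hr0.le le_rfl z hz))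
    (fun z hz => co_hasSum hv (hmem r hr0.le le_rfl z hz))
    (hv.continuousOn.comp_continuous (by fun_prop)
      (fun θ => hmem r hr0.le le_rfl _ (hn r hr0.le θ)))
  have hM1 := (hasSum_nat_add_iff' 1).mpr hM
  simp only [Finset.range_one, Finset.sum_singleton, mul_zero, pow_zero, mul_one, co_zero] at hM1
  -- the inner integrals
  have hA : ∀ t ∈ Set.Ioc (0:ℝ) r, HasSum (fun k : ℕ => 2 * Real.pi * (co (deriv u) k *
      conj (((k:ℂ) + 2) * co v (k + 1)) * t ^ (2 * k)))
      (∫ θ in (-Real.pi)..Real.pi,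
        deriv u (t * exp (θ * I)) * conj (Vf v (t * exp (θ * I)))) := by
    intro t ht
    have ht1 : t < 1 := lt_of_le_of_lt ht.2 hr1
    have hne : ∀ z : ℂ, ‖z‖ = t → z ≠ 0 := by
      intro z hz h0
      rw [h0, norm_zero] at hz
      linarith [ht.1]
    apply bil_parseval ht.1.le (co_summable hd ht.1.le ht1) (Vf_summable hv ht.1 ht1)
      (fun z hz => co_hasSum hd (hmem t ht.1.le ht.2 z hz))
      (fun z hz => Vf_hasSum hv (hmem t ht.1.le ht.2 z hz) (hne z hz))
    have hz1 := fun θ => hmem t ht.1.le ht.2 _ (hn t ht.1.le θ)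
    have hz2 := fun θ => hne _ (hn t ht.1.le θ)
    have hc0 : Continuous fun θ : ℝ => (t:ℂ) * exp (θ * I) := by fun_prop
    unfold Vf
    exact ((hv.deriv isOpen_ball).continuousOn.comp_continuous hc0 hz1).add
      (((hv.continuousOn.comp_continuous hc0 hz1).sub continuous_const).div hc0 hz2)
  have hsum : Summable fun k : ℕ => (‖co (deriv u) k‖ * r ^ k) *
      (‖((k:ℂ) + 2) * co v (k + 1)‖ * r ^ k) := by
    have h1 := co_summable hd hr0.le hr1
    have h2 := Vf_summable hv hr0 hr1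
    exact h1.mul_of_nonneg h2 (fun k => by positivity) (fun k => by positivity) |>.comp_injective
      (i := fun k : ℕ => (k, k)) (fun a b h => (Prod.mk.inj h).1)
  have hI := intervalIntegral.hasSum_integral_of_dominated_convergence (μ := volume)
    (a := 0) (b := r)
    (F := fun (k : ℕ) (t : ℝ) => ((2 * t * (1 - t ^ 2 / r ^ 2) : ℝ) : ℂ) *
      (2 * Real.pi * (co (deriv u) k * conj (((k:ℂ) + 2) * co v (k + 1)) * t ^ (2 * k))))
    (f := fun t => ((2 * t * (1 - t ^ 2 / r ^ 2) : ℝ) : ℂ) *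
      ∫ θ in (-Real.pi)..Real.pi, deriv u (t * exp (θ * I)) * conj (Vf v (t * exp (θ * I))))
    (fun k _ => 2 * (2 * Real.pi) * ((‖co (deriv u) k‖ * r ^ k) *
      (‖((k:ℂ) + 2) * co v (k + 1)‖ * r ^ k))) (fun k => by
      apply Continuous.aestronglyMeasurable
      fun_prop) (fun k => Eventually.of_forall fun t ht => by
        rw [Set.uIoc_of_le hr0.le] at ht
        have ht0 := ht.1.le
        have e1 : |2 * t * (1 - t ^ 2 / r ^ 2)| ≤ 2 := by
          have h1 : t ^ 2 / r ^ 2 ≤ 1 := by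
            rw [div_le_one (by positivity)]
            exact pow_le_pow_left₀ ht0 ht.2 2
          have h2 : 0 ≤ t ^ 2 / r ^ 2 := by positivity
          rw [abs_le]
          have h3 : t ≤ 1 := by linarith [ht.2]
          constructor <;> nlinarith
        rw [norm_mul, norm_mul, norm_mul, norm_mul, norm_mul, RCLike.norm_conj, norm_pow,
          Complex.norm_real, Complex.norm_real, Complex.norm_real, Real.norm_eq_abs,
          Real.norm_eq_abs, Real.norm_eq_abs, abs_of_pos Real.pi_pos, abs_of_nonneg ht0,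
          Complex.norm_ofNat]
        have e2 : t ^ (2 * k) ≤ r ^ (2 * k) := pow_le_pow_left₀ ht0 ht.2 _
        calc |2 * t * (1 - t ^ 2 / r ^ 2)| * (2 * Real.pi * (‖co (deriv u) k‖ *
            ‖((k:ℂ) + 2) * co v (k + 1)‖ * t ^ (2 * k))) ≤
            2 * (2 * Real.pi * (‖co (deriv u) k‖ *
            ‖((k:ℂ) + 2) * co v (k + 1)‖ * r ^ (2 * k))) := by gcongr
          _ = _ := by ring)
      (Eventually.of_forall fun t _ => hsum.mul_left _)
      (continuous_const.intervalIntegrable _ _) (Eventually.of_forall fun t ht => by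
        rw [Set.uIoc_of_le hr0.le] at ht
        exact (hA t ht).mul_left _)
  have e3 : (fun k : ℕ => ∫ t in (0:ℝ)..r, ((2 * t * (1 - t ^ 2 / r ^ 2) : ℝ) : ℂ) *
      (2 * Real.pi * (co (deriv u) k * conj (((k:ℂ) + 2) * co v (k + 1)) * t ^ (2 * k)))) =
      fun k : ℕ => 2 * Real.pi * (co u (k + 1) * conj (co v (k + 1)) * r ^ (2 * (k + 1))) := by
    funext k
    have e4 : ∀ t : ℝ, ((2 * t * (1 - t ^ 2 / r ^ 2) : ℝ) : ℂ) *
        (2 * Real.pi * (co (deriv u) k * conj (((k:ℂ) + 2) * co v (k + 1)) * t ^ (2 * k))) =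
        (2 * Real.pi * (co (deriv u) k * conj (((k:ℂ) + 2) * co v (k + 1)))) *
          (((2 * t * (1 - t ^ 2 / r ^ 2)) * t ^ (2 * k) : ℝ) : ℂ) := by
      intro t
      push_cast
      ring
    simp_rw [e4]
    rw [intervalIntegral.integral_const_mul, intervalIntegral.integral_ofReal, rad_int hr0,
      co_deriv]
    simp only [map_mul, map_add, Complex.conj_natCast, map_ofNat]
    have h1 : (k:ℂ) + 1 ≠ 0 := by exact_mod_cast Nat.succ_ne_zero k
    have h2 : (k:ℂ) + 2 ≠ 0 := by exact_mod_cast (Nat.succ_ne_zero (k + 1))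
    push_cast
    field_simp
    ring
  rw [e3] at hI
  exact hM1.unique hI

end H731SI
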