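import Pool.Agent.H731_SI.Bilin2

/-!
The duality between the spaces with exponents `p` and `q`.
-/

set_option autoImplicit false

namespace H731SI

open MeasureTheory Complex Filter Topology Metric H731Dp
open scoped ENNReal ComplexConjugate

theorem Vf_le {v : ℂ → ℂ} (hv : DifferentiableOn ℂ v (ball 0 1))
    (h1 : ∀ z ∈ ball (0:ℂ) 1, ‖v z‖ ≤ 1) {z : ℂ} (hz : z ∈ ball (0:ℂ) 1) :
    ‖Vf v z‖ₑ ≤ ‖deriv v z‖ₑ + 3 := by
  have h2 : ‖(v z - v 0) / z‖ ≤ 3 := by
    rcases eq_or_ne z 0 with h0 | h0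
    · rw [h0]
      simp
    · have hm : Set.MapsTo v (ball 0 1) (closedBall (v 0) 3) := by
        intro w hw
        rw [mem_closedBall, dist_eq_norm]
        have := norm_sub_le (v w) (v 0)
        have := h1 w hw
        have := h1 0 (mem_ball_self one_pos)
        linarith
      have h3 := Complex.norm_dslope_le_div_of_mapsTo_ball hv hm hz
      rw [dslope_of_ne _ h0, slope_def_field, sub_zero, div_one] at h3
      exact h3
  unfold Vf
  refine (enorm_add_le _ _).trans ?_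
  gcongr
  rw [← ofReal_norm]
  calc ENNReal.ofReal ‖(v z - v 0) / z‖ ≤ ENNReal.ofReal 3 := ENNReal.ofReal_le_ofReal h2
    _ = 3 := by simp

/-- the integrand of the area bound -/
noncomputable def Gb (u v : ℂ → ℂ) (z : ℂ) : ℝ≥0∞ :=
  ENNReal.ofReal (4 * (1 - ‖z‖)) * (‖deriv u z‖ₑ * (‖deriv v z‖ₑ + 3))

theorem Gb_meas (u v : ℂ → ℂ) : Measurable (Gb u v) := by
  unfold Gb
  have h1 : Measurable (deriv u) := measurable_deriv u
  have h2 : Measurable (deriv v) := measurable_deriv v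
  fun_prop

theorem pair_bound {u v : ℂ → ℂ} (hu : DifferentiableOn ℂ u (ball 0 1))
    (hv : DifferentiableOn ℂ v (ball 0 1)) (h1 : ∀ z ∈ ball (0:ℂ) 1, ‖v z‖ ≤ 1)
    {r : ℝ} (hr0 : 0 < r) (hr1 : r < 1) :
    ‖(∫ θ in (-Real.pi)..Real.pi, u (r * exp (θ * I)) * conj (v (r * exp (θ * I)))) -
      2 * Real.pi * (u 0 * conj (v 0))‖ₑ ≤ ∫⁻ z in ball (0:ℂ) 1, Gb u v z := by
  have hpi : -Real.pi ≤ Real.pi := by linarith [Real.pi_pos]
  rw [lp_bilinear hu hv hr0 hr1, intervalIntegral.integral_of_le hr0.le,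
    polar_int (Gb_meas u v)]
  refine (enorm_integral_le_lintegral_enorm _).trans ?_
  have hsub : ∀ t ∈ Set.Ioc (0:ℝ) r, t ∈ Set.Ioo (0:ℝ) 1 := fun t ht =>
    ⟨ht.1, lt_of_le_of_lt ht.2 hr1⟩
  refine le_trans ?_ (lintegral_mono_set (s := Set.Ioc 0 r) hsub)
  refine setLIntegral_mono' measurableSet_Ioc fun t ht => ?_
  have ht1 := (hsub t ht).2
  have hn : ∀ θ : ℝ, ‖(t:ℂ) * exp (θ * I)‖ = t := by
    intro θ
    rw [norm_mul, Complex.norm_exp_ofReal_mul_I, mul_one, Complex.norm_real,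
      Real.norm_eq_abs, abs_of_pos ht.1]
  rw [enorm_mul, intervalIntegral.integral_of_le hpi, integral_Ioc_eq_integral_Ioo]
  have e1 : ‖((2 * t * (1 - t ^ 2 / r ^ 2) : ℝ) : ℂ)‖ₑ ≤ ENNReal.ofReal (t * (4 * (1 - t))) := by
    rw [← ofReal_norm, Complex.norm_real, Real.norm_eq_abs]
    apply ENNReal.ofReal_le_ofReal
    have h1 : t ^ 2 / r ^ 2 ≤ 1 := by
      rw [div_le_one (by positivity)]
      exact pow_le_pow_left₀ ht.1.le ht.2 2
    have h2 : t ^ 2 ≤ t ^ 2 / r ^ 2 := by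
      rw [le_div_iff₀ (by positivity)]
      have : r ^ 2 ≤ 1 := by nlinarith
      nlinarith [sq_nonneg t]
    have ht0 := ht.1
    have h3 : 0 ≤ 2 * t * (1 - t ^ 2 / r ^ 2) := by
      have : 0 ≤ 1 - t ^ 2 / r ^ 2 := by linarith
      positivity
    rw [abs_of_nonneg h3]
    have h4 : 1 - t ^ 2 / r ^ 2 ≤ 2 * (1 - t) := by nlinarith
    calc 2 * t * (1 - t ^ 2 / r ^ 2) ≤ 2 * t * (2 * (1 - t)) := by gcongr
      _ = _ := by ring
  have e2 : ‖∫ θ in Set.Ioo (-Real.pi) Real.pi,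
      deriv u (t * exp (θ * I)) * conj (Vf v (t * exp (θ * I)))‖ₑ ≤
      ∫⁻ θ in Set.Ioo (-Real.pi) Real.pi, ‖deriv u (t * exp (θ * I))‖ₑ *
        (‖deriv v (t * exp (θ * I))‖ₑ + 3) := by
    refine (enorm_integral_le_lintegral_enorm _).trans ?_
    refine lintegral_mono fun θ => ?_
    rw [enorm_mul]
    gcongr
    have : ‖conj (Vf v (t * exp (θ * I)))‖ₑ = ‖Vf v (t * exp (θ * I))‖ₑ := by
      rw [← ofReal_norm, ← ofReal_norm, RCLike.norm_conj]
    rw [this]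
    apply Vf_le hv h1
    rw [mem_ball_zero_iff, hn]
    exact ht1
  refine (mul_le_mul' e1 e2).trans (le_of_eq ?_)
  rw [← lintegral_const_mul]
  · refine lintegral_congr fun θ => ?_
    unfold Gb
    rw [hn, ENNReal.ofReal_mul ht.1.le, mul_assoc]
  · have h1 : Measurable (deriv u) := measurable_deriv u
    have h2 : Measurable (deriv v) := measurable_deriv v
    fun_prop

/-- Hölder -/
theorem holder_bound {p q : ℝ} (hpq : p.HolderConjugate q) (u v : ℂ → ℂ) :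
    ∫⁻ z in ball (0:ℂ) 1, Gb u v z ≤
      (4 * J q (fun z => (‖deriv v z‖ₑ + 3) ^ q) ^ (1 / q)) * Dn p u ^ (1 / p) := by
  have h1 : Measurable (deriv u) := measurable_deriv u
  have h2 : Measurable (deriv v) := measurable_deriv v
  have hp0 := hpq.pos
  have hq0 := hpq.symm.pos
  have hWp : Measurable (W p) := W_meas p
  have hWq : Measurable (W q) := W_meas q
  have key := ENNReal.lintegral_mul_le_Lp_mul_Lq (volume.restrict (ball (0:ℂ) 1)) hpq
    (f := fun z => W p z ^ (1 / p) * ‖deriv u z‖ₑ)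
    (g := fun z => W q z ^ (1 / q) * (‖deriv v z‖ₑ + 3)) (by fun_prop) (by fun_prop)
  have e1 : ∀ z : ℂ, (W p z ^ (1 / p) * ‖deriv u z‖ₑ) ^ p = W p z * ‖deriv u z‖ₑ ^ p := by
    intro z
    rw [ENNReal.mul_rpow_of_nonneg _ _ hp0.le, ← ENNReal.rpow_mul, one_div,
      inv_mul_cancel₀ hp0.ne', ENNReal.rpow_one]
  have e2 : ∀ z : ℂ, (W q z ^ (1 / q) * (‖deriv v z‖ₑ + 3)) ^ q =
      W q z * (‖deriv v z‖ₑ + 3) ^ q := by
    intro z
    rw [ENNReal.mul_rpow_of_nonneg _ _ hq0.le, ← ENNReal.rpow_mul, one_div,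
      inv_mul_cancel₀ hq0.ne', ENNReal.rpow_one]
  simp_rw [e1, e2] at key
  have e3 : ∫⁻ z in ball (0:ℂ) 1, Gb u v z = 4 * ∫⁻ z in ball (0:ℂ) 1,
      ((fun z => W p z ^ (1 / p) * ‖deriv u z‖ₑ) *
        (fun z => W q z ^ (1 / q) * (‖deriv v z‖ₑ + 3))) z := by
    rw [← lintegral_const_mul _ (by fun_prop)]
    refine setLIntegral_congr_fun measurableSet_ball fun z hz => ?_
    have hz' : 0 < 1 - ‖z‖ := by
      have := mem_ball_zero_iff.mp hz
      linarith
    have e4 : W p z ^ (1 / p) * W q z ^ (1 / q) = ENNReal.ofReal (1 - ‖z‖) := by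
      unfold W
      rw [ENNReal.ofReal_rpow_of_pos (by positivity), ENNReal.ofReal_rpow_of_pos (by positivity),
        ← ENNReal.ofReal_mul (by positivity), ← Real.rpow_mul hz'.le, ← Real.rpow_mul hz'.le,
        ← Real.rpow_add hz']
      congr 1
      have h3 := hpq.inv_add_inv_eq_one
      have : (p - 1) * (1 / p) + (q - 1) * (1 / q) = 1 := by
        have h4 : (p - 1) * (1 / p) = 1 - p⁻¹ := by field_simp
        have h5 : (q - 1) * (1 / q) = 1 - q⁻¹ := by field_simp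
        rw [h4, h5]
        linarith
      rw [this, Real.rpow_one]
    unfold Gb
    simp only [Pi.mul_apply]
    rw [ENNReal.ofReal_mul (by norm_num), ← e4]
    have : ENNReal.ofReal 4 = 4 := by simp
    rw [this]
    ring
  rw [e3]
  unfold Dn J
  calc _ ≤ 4 * ((∫⁻ z in ball (0:ℂ) 1, W p z * ‖deriv u z‖ₑ ^ p) ^ (1 / p) *
        (∫⁻ z in ball (0:ℂ) 1, W q z * (‖deriv v z‖ₑ + 3) ^ q) ^ (1 / q)) := by gcongr
    _ = _ := by ring

theorem const_fin {q : ℝ} (hq : 1 ≤ q) {v : ℂ → ℂ} (hv : Dn q v < ⊤) :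
    4 * J q (fun z => (‖deriv v z‖ₑ + 3) ^ q) ^ (1 / q) ≠ ⊤ := by
  have h1 : J q (fun z => (‖deriv v z‖ₑ + 3) ^ q) < ⊤ := by
    have h2 : Measurable (deriv v) := measurable_deriv v
    calc J q (fun z => (‖deriv v z‖ₑ + 3) ^ q) ≤
        J q (fun z => 2 ^ (q - 1) * (‖deriv v z‖ₑ ^ q + 3 ^ q)) :=
          J_mono fun z _ => add_rpow hq _ _
      _ = 2 ^ (q - 1) * (J q (fun z => ‖deriv v z‖ₑ ^ q) + J q (fun _ => 3 ^ q)) := by
          rw [J_const_mul _ _ (by fun_prop), J_add _ _ (by fun_prop)]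
      _ < ⊤ := by
          apply ENNReal.mul_lt_top
          · exact ENNReal.rpow_lt_top_of_nonneg (by linarith) (by simp)
          · refine ENNReal.add_lt_top.mpr ⟨hv, ?_⟩
            refine (J_const hq _).trans_lt (ENNReal.mul_lt_top ?_ measure_ball_lt_top)
            exact ENNReal.rpow_lt_top_of_nonneg (by linarith) (by simp)
  exact ENNReal.mul_ne_top (by simp)
    (ENNReal.rpow_ne_top_of_nonneg (by positivity) h1.ne)

end H731SI
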