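import Pool.Agent.H731_SI.Noncyc

/-!
Assembly.
-/

set_option autoImplicit false

namespace H731SI

open MeasureTheory Complex Filter Topology Metric H731Dp Polynomial
open scoped ENNReal

theorem int_eq_m2 {g : ℂ → ℂ} {r : ℝ} :
    ∫ θ in (-Real.pi)..Real.pi, ‖g (r * exp (θ * I))‖ ^ 2 = 2 * Real.pi * H731WI.m2 g r := by
  have hper : Function.Periodic (fun θ : ℝ => ‖g (r * exp (θ * I))‖ ^ 2) (2 * Real.pi) := by
    intro θ
    simp only
    congr 4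
    push_cast
    rw [add_mul, Complex.exp_add, Complex.exp_two_pi_mul_I, mul_one]
  rw [H731WI.m2_eq, ← mul_assoc, mul_inv_cancel₀ (by positivity), one_mul]
  have := hper.intervalIntegral_add_eq (-Real.pi) 0
  rw [zero_add, show -Real.pi + 2 * Real.pi = Real.pi by ring] at this
  exact this

theorem means_tendsto {f : ℂ → ℂ} (hf : DifferentiableOn ℂ f (ball 0 1))
    (h1 : ∀ z ∈ ball (0:ℂ) 1, ‖f z‖ ≤ 1) {ρ : ℕ → ℝ} (hρ : ∀ n, 0 < ρ n ∧ ρ n < 1)
    (hlim : Tendsto (fun n => ∫ θ in (-Real.pi)..Real.pi,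
      (1 - ‖f (ρ n * exp (θ * I))‖ ^ 2)) atTop (𝓝 0)) :
    Tendsto (fun r : ℝ => ∫ θ in (-Real.pi)..Real.pi, ‖f (r * exp (θ * I))‖ ^ 2) (𝓝[<] 1)
      (𝓝 (2 * Real.pi)) := by
  have hpi := Real.pi_pos
  have e1 : ∀ n, ∫ θ in (-Real.pi)..Real.pi, (1 - ‖f (ρ n * exp (θ * I))‖ ^ 2) =
      2 * Real.pi - 2 * Real.pi * H731WI.m2 f (ρ n) := by
    intro n
    have hmem : ∀ θ : ℝ, (ρ n : ℂ) * exp (θ * I) ∈ ball (0:ℂ) 1 := by
      intro θ
      rw [mem_ball_zero_iff, norm_mul, Complex.norm_exp_ofReal_mul_I, mul_one,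
        Complex.norm_real, Real.norm_eq_abs, abs_of_pos (hρ n).1]
      exact (hρ n).2
    have hc : Continuous fun θ : ℝ => ‖f (ρ n * exp (θ * I))‖ ^ 2 :=
      (hf.continuousOn.comp_continuous (by fun_prop) hmem).norm.pow 2
    rw [intervalIntegral.integral_sub (continuous_const.intervalIntegrable _ _)
      (hc.intervalIntegrable _ _), int_eq_m2, intervalIntegral.integral_const]
    simp only [smul_eq_mul]
    ring
  simp_rw [e1] at hlim
  simp_rw [int_eq_m2]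
  rw [Metric.tendsto_nhdsWithin_nhds]
  intro ε hε
  obtain ⟨N, hN⟩ := Metric.tendsto_atTop.mp hlim ε hε
  have h3 := hN N le_rfl
  rw [Real.dist_eq, sub_zero] at h3
  refine ⟨1 - ρ N, by linarith [(hρ N).2], fun r hr1 hr2 => ?_⟩
  rw [Real.dist_eq] at hr2
  have hr1' : r < 1 := hr1
  have hr3 : ρ N ≤ r := by
    rw [abs_of_neg (by linarith)] at hr2
    linarith
  have h4 := H731WI.m2_mono hf (hρ N).1.le hr3 hr1'
  have h5 := m2_le_one hf h1 ((hρ N).1.le.trans hr3) hr1'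
  rw [Real.dist_eq, abs_sub_lt_iff]
  have h6 := (abs_lt.mp h3).2
  constructor <;> nlinarith

/-- **Main construction.** -/
theorem main {p : ℝ} (hp : 2 < p) : ∃ g : ℂ → ℂ, DifferentiableOn ℂ g (ball 0 1) ∧
    g 0 = -1 ∧ (∀ z ∈ ball (0:ℂ) 1, (g z).re ≤ 0) ∧ Dn p g < ⊤ ∧
    Dn p (fun z => exp (g z)) < ⊤ ∧
    Tendsto (fun r : ℝ => ∫ θ in (-Real.pi)..Real.pi, ‖exp (g (r * exp (θ * I)))‖ ^ 2) (𝓝[<] 1)
      (𝓝 (2 * Real.pi)) ∧
    ∀ Q : ℕ → ℂ[X], ¬ Tendsto (fun n => ‖(Q n).eval 0 * exp (g 0) - 1‖ₑ +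
      Dn p (fun z => (Q n).eval z * exp (g z) - 1) ^ (1 / p)) atTop (𝓝 0) := by
  have hpq : p.HolderConjugate (p / (p - 1)) := Real.HolderConjugate.conjExponent (by linarith)
  have hp1 : 0 < p - 1 := by linarith
  have hq1 : 1 < p / (p - 1) := by
    rw [lt_div_iff₀ hp1]
    linarith
  have hq2 : p / (p - 1) < 2 := by
    rw [div_lt_iff₀ hp1]
    linarith
  obtain ⟨H, hd, hre, h0, hHp, hHq, ρ, hρ, -, hlim⟩ := exists_fun hp hq1 hq2
  have hf : DifferentiableOn ℂ (fun z => exp (-(H z))) (ball 0 1) := hd.neg.cexp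
  have h1 : ∀ z ∈ ball (0:ℂ) 1, ‖exp (-(H z))‖ ≤ 1 := by
    intro z hz
    rw [Complex.norm_exp, Real.exp_le_one_iff, Complex.neg_re]
    linarith [hre z hz]
  have hf0 : ‖exp (-(H 0))‖ < 1 := by
    rw [h0, Complex.norm_exp, Real.exp_lt_one_iff]
    simp
  have r1 : Dn p (fun z => -(H z)) < ⊤ := by
    have : Dn p (fun z => -(H z)) = Dn p H := by
      unfold Dn J
      refine setLIntegral_congr_fun measurableSet_ball fun z _ => ?_
      simp only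
      rw [show (fun z => -(H z)) = -H from rfl, deriv.neg, enorm_neg]
    rw [this]
    exact hHp
  have r2 : Dn p (fun z => exp (-(H z))) < ⊤ := by
    refine lt_of_le_of_lt ?_ hHp
    unfold Dn
    refine J_mono fun z hz => ?_
    have h2 : HasDerivAt H (deriv H z) z :=
      (hd.differentiableAt (isOpen_ball.mem_nhds hz)).hasDerivAt
    have h3 := h2.neg.cexp.deriv
    have h4 : deriv (fun z => exp (-(H z))) z = exp (-(H z)) * -(deriv H z) := h3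
    rw [h4, enorm_mul, enorm_neg]
    have h5 : ‖exp (-(H z))‖ₑ ≤ 1 := by
      rw [← ofReal_norm]
      exact ENNReal.ofReal_le_one.mpr (h1 z hz)
    have h6 : ‖exp (-(H z))‖ₑ * ‖deriv H z‖ₑ ≤ ‖deriv H z‖ₑ := by
      calc ‖exp (-(H z))‖ₑ * ‖deriv H z‖ₑ ≤ 1 * ‖deriv H z‖ₑ := by gcongr
        _ = _ := one_mul _
    exact ENNReal.rpow_le_rpow h6 (by linarith)
  have r3 := means_tendsto hf h1 hρ hlim
  have r4 : ∀ Q : ℕ → ℂ[X], ¬ Tendsto (fun n => ‖(Q n).eval 0 * exp (-(H 0)) - 1‖ₑ +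
      Dn p (fun z => (Q n).eval z * exp (-(H z)) - 1) ^ (1 / p)) atTop (𝓝 0) := fun Q =>
    not_tendsto hpq hf h1 hf0 hHq hρ hlim Q
  have r5 : ∀ z ∈ ball (0:ℂ) 1, (-(H z)).re ≤ 0 := by
    intro z hz
    rw [Complex.neg_re]
    linarith [hre z hz]
  have r6 : -(H 0) = -1 := by rw [h0]
  exact ⟨fun z => -(H z), hd.neg, r6, r5, r1, r2, r3, r4⟩

end H731SI
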