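import Pool.Agent.H731_SI.Seq

/-!
The limit function.
-/

set_option autoImplicit false

namespace H731SI

open MeasureTheory Complex Filter Topology Metric H731Dp Polynomial
open scoped ENNReal

theorem mean_re (h : ℂ[X]) : ∫ θ in (-Real.pi)..Real.pi, (h.eval (exp (θ * I))).re =
    2 * Real.pi * (h.eval 0).re := by
  have hd : DiffContOnCl ℂ (fun z => h.eval z) (ball 0 |1|) := by
    apply Differentiable.diffContOnCl
    fun_prop
  have h1 := hd.circleAverage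
  rw [Real.circleAverage_def] at h1
  simp only [circleMap_zero, Complex.ofReal_one, one_mul] at h1
  have hper : Function.Periodic (fun θ : ℝ => h.eval (exp (θ * I))) (2 * Real.pi) := by
    intro θ
    simp only
    congr 1
    push_cast
    rw [add_mul, Complex.exp_add, Complex.exp_two_pi_mul_I, mul_one]
  have h2 := hper.intervalIntegral_add_eq (-Real.pi) 0
  rw [zero_add, show -Real.pi + 2 * Real.pi = Real.pi by ring] at h2
  rw [← h2] at h1
  have h3 : ∫ θ in (-Real.pi)..Real.pi, (h.eval (exp (θ * I))).re =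
      (∫ θ in (-Real.pi)..Real.pi, h.eval (exp (θ * I))).re := by
    have hc : Continuous fun θ : ℝ => h.eval (exp (θ * I)) := by fun_prop
    exact Complex.reCLM.intervalIntegral_comp_comm (hc.intervalIntegrable _ _)
  rw [h3, ← h1, Complex.real_smul, Complex.re_ofReal_mul, ← mul_assoc,
    mul_inv_cancel₀ (by positivity), one_mul]

theorem max_mod (F : ℂ → ℂ) (hF : Differentiable ℂ F) {C : ℝ} (hC : ∀ z : ℂ, ‖z‖ = 1 → ‖F z‖ ≤ C)
    {z : ℂ} (hz : ‖z‖ ≤ 1) : ‖F z‖ ≤ C := by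
  apply Complex.norm_le_of_forall_mem_frontier_norm_le (U := ball (0:ℂ) 1) isBounded_ball
    hF.diffContOnCl
  · intro w hw
    rw [frontier_ball _ one_ne_zero, mem_sphere_zero_iff_norm] at hw
    exact hC w hw
  · rw [closure_ball _ one_ne_zero, mem_closedBall_zero_iff]
    exact hz

/-- the data of the construction -/
structure Data (p q : ℝ) (m : ℕ) where
  s : ℕ → St
  h0 : (s 0).1.1 = 1
  c : ℕ → ℂ[X]
  N : ℕ → ℕ
  hs : ∀ n, (s (n + 1)).1.1 = (s n).1.1 + c n * X ^ N n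
  hN : ∀ n, 1 ≤ N n
  hR : ∀ n, (s n).2.1 ≤ (s (n + 1)).2.1
  hR1 : ∀ n, 1 - (1 / 2) ^ n ≤ (s (n + 1)).2.1
  hR0 : ∀ n, 0 < (s (n + 1)).2.1
  hRN : ∀ n, (s (n + 1)).2.1 ^ N n ≤ (1 / 2) ^ n
  hdil : ∀ n, ∀ z : ℂ, ‖z‖ = 1 →
    ‖(s n).1.1.eval ((s (n + 1)).2.1 * z) - (s n).1.1.eval z‖ ≤ (1 / 2) ^ n
  hc : ∀ n, ∀ z : ℂ, ‖z‖ = 1 → ss m ((s n).1.1.eval z).re / 2 ≤ ‖(c n).eval z‖ ∧
        ‖(c n).eval z‖ ≤ ss m ((s n).1.1.eval z).re
  hDp : ∀ n, Dn p (fun z => (s (n + 1)).1.1.eval z) ≤ Dn p (fun z => (s n).1.1.eval z) +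
        ENNReal.ofReal ((1 / 2) ^ n + Cp p * Aq (s n).1.1 (c n))
  hDq : ∀ n, Dn q (fun z => exp (-((s (n + 1)).1.1.eval z))) ≤
      Dn q (fun z => exp (-((s n).1.1.eval z))) +
        ENNReal.ofReal ((1 / 2) ^ n + Cp q * (K2 m * Aq (s n).1.1 (c n)))
  hPt : ∀ n, Pt (s (n + 1)).1.1 ≤ Pt (s n).1.1 - 1 / 32 * Aq (s n).1.1 (c n) + (1 / 2) ^ n

theorem exists_data {p q : ℝ} (hp : 2 < p) (hq1 : 1 < q) (hq2 : q < 2) {m : ℕ} (hm1 : 1 ≤ m)
    (hm : 3 / 2 ≤ ((m : ℝ) - 1) * (p - 2)) : Nonempty (Data p q m) := by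
  obtain ⟨s, hs0, hs⟩ := exists_seq hp hq1 hq2 hm1 hm
  unfold Rel at hs
  choose c N hs using hs
  exact ⟨⟨s, hs0, c, N, fun n => (hs n).1, fun n => (hs n).2.1, fun n => (hs n).2.2.1,
    fun n => (hs n).2.2.2.1, fun n => (hs n).2.2.2.2.1, fun n => (hs n).2.2.2.2.2.1,
    fun n => (hs n).2.2.2.2.2.2.1, fun n => (hs n).2.2.2.2.2.2.2.1,
    fun n => (hs n).2.2.2.2.2.2.2.2.1, fun n => (hs n).2.2.2.2.2.2.2.2.2.1,
    fun n => (hs n).2.2.2.2.2.2.2.2.2.2⟩⟩

namespace Data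

variable {p q : ℝ} {m : ℕ} (D : Data p q m)

/-- the polynomials -/
noncomputable def hh (n : ℕ) : ℂ[X] := (D.s n).1.1

/-- the radii -/
noncomputable def R (n : ℕ) : ℝ := (D.s (n + 1)).2.1

theorem pos (n : ℕ) {z : ℂ} (hz : ‖z‖ = 1) : 0 < ((D.hh n).eval z).re := (D.s n).1.2 z hz

theorem R_lt (n : ℕ) : D.R n < 1 := (D.s (n + 1)).2.2.2

theorem R_pos (n : ℕ) : 0 < D.R n := D.hR0 n

theorem R_mono : Monotone D.R := monotone_nat_of_le_succ fun n => D.hR (n + 1)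

theorem R_tendsto : Tendsto D.R atTop (𝓝 1) := by
  have h1 : Tendsto (fun n : ℕ => 1 - (1 / 2 : ℝ) ^ n) atTop (𝓝 (1 - 0)) :=
    tendsto_const_nhds.sub (tendsto_pow_atTop_nhds_zero_of_lt_one (by norm_num) (by norm_num))
  rw [sub_zero] at h1
  exact tendsto_of_tendsto_of_tendsto_of_le_of_le h1 tendsto_const_nhds D.hR1
    (fun n => (D.R_lt n).le)

theorem c_half (hm1 : 1 ≤ m) (n : ℕ) {z : ℂ} (hz : ‖z‖ ≤ 1) : ‖(D.c n).eval z‖ ≤ 1 / 2 := by
  apply max_mod (fun z => (D.c n).eval z) (by fun_prop) _ hz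
  intro w hw
  exact (D.hc n w hw).2.trans (ss_le_half hm1 (D.pos n hw))

theorem hh_succ (n : ℕ) (z : ℂ) : (D.hh (n + 1)).eval z =
    (D.hh n).eval z + (D.c n).eval z * z ^ D.N n := by
  unfold hh
  rw [D.hs n]
  simp

theorem hh_zero (n : ℕ) : (D.hh n).eval 0 = 1 := by
  induction n with
  | zero =>
      unfold hh
      rw [D.h0]
      simp
  | succ n ih =>
      rw [hh_succ, ih, zero_pow (by have := D.hN n; omega), mul_zero, add_zero]

theorem step_dist (hm1 : 1 ≤ m) {k n : ℕ} (hkn : k ≤ n) {z : ℂ} (hz : ‖z‖ ≤ D.R k) :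
    dist ((D.hh n).eval z) ((D.hh (n + 1)).eval z) ≤ 1 / 2 * (1 / 2) ^ n := by
  rw [dist_comm, dist_eq_norm, hh_succ, add_sub_cancel_left, norm_mul, norm_pow]
  have h1 : ‖z‖ ≤ D.R n := hz.trans (D.R_mono hkn)
  apply mul_le_mul (D.c_half hm1 n (h1.trans (D.R_lt n).le)) _ (by positivity) (by norm_num)
  calc ‖z‖ ^ D.N n ≤ D.R n ^ D.N n := by gcongr
    _ ≤ (1 / 2) ^ n := D.hRN n

theorem exists_R {z : ℂ} (hz : z ∈ ball (0:ℂ) 1) : ∃ k, ‖z‖ < D.R k := by
  have := D.R_tendsto.eventually_const_lt (mem_ball_zero_iff.mp hz)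
  exact this.exists

/-- the limit function -/
noncomputable def H (z : ℂ) : ℂ := limUnder atTop (fun n => (D.hh n).eval z)

theorem tendsto_H (hm1 : 1 ≤ m) {z : ℂ} (hz : z ∈ ball (0:ℂ) 1) :
    Tendsto (fun n => (D.hh n).eval z) atTop (𝓝 (D.H z)) := by
  obtain ⟨k, hk⟩ := D.exists_R hz
  have hc : CauchySeq (fun n => (D.hh (n + k)).eval z) := by
    apply cauchySeq_of_le_geometric (1 / 2) (1 / 2 * (1 / 2) ^ k) (by norm_num)
    intro n
    have := D.step_dist hm1 (Nat.le_add_left k n) hk.le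
    rw [show n + 1 + k = n + k + 1 by ring]
    refine this.trans (le_of_eq ?_)
    rw [pow_add]
    ring
  have hc' : CauchySeq (fun n => (D.hh n).eval z) := by
    rw [← cauchySeq_shift k]
    exact hc
  exact hc'.tendsto_limUnder

theorem H_dist (hm1 : 1 ≤ m) {k : ℕ} {z : ℂ} (hz : ‖z‖ ≤ D.R k) {n : ℕ} (hkn : k ≤ n) :
    dist ((D.hh n).eval z) (D.H z) ≤ (1 / 2) ^ n := by
  have hzb : z ∈ ball (0:ℂ) 1 := mem_ball_zero_iff.mpr (hz.trans_lt (D.R_lt k))
  have ht := (D.tendsto_H hm1 hzb).comp (tendsto_add_atTop_nat n)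
  have := dist_le_of_le_geometric_of_tendsto₀ (1 / 2) (1 / 2 * (1 / 2) ^ n) (by norm_num)
    (fun j => by
      have := D.step_dist hm1 (show k ≤ j + n by omega) hz
      simp only [Function.comp]
      rw [show j + 1 + n = j + n + 1 by ring]
      refine this.trans (le_of_eq ?_)
      rw [pow_add]
      ring) ht
  simp only [Function.comp, zero_add] at this
  refine this.trans (le_of_eq ?_)
  ring

theorem tlu (hm1 : 1 ≤ m) :
    TendstoLocallyUniformlyOn (fun n z => (D.hh n).eval z) D.H atTop (ball 0 1) := by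
  rw [Metric.tendstoLocallyUniformlyOn_iff]
  intro ε hε z hz
  obtain ⟨k, hk⟩ := D.exists_R hz
  refine ⟨ball 0 (D.R k), mem_nhdsWithin_of_mem_nhds
    (isOpen_ball.mem_nhds (mem_ball_zero_iff.mpr hk)), ?_⟩
  have h1 : ∀ᶠ n : ℕ in atTop, (1 / 2 : ℝ) ^ n < ε :=
    (tendsto_pow_atTop_nhds_zero_of_lt_one (by norm_num) (by norm_num)).eventually_lt_const hε
  filter_upwards [h1, eventually_ge_atTop k] with n hn hkn w hw
  rw [dist_comm]
  exact (D.H_dist hm1 (mem_ball_zero_iff.mp hw).le hkn).trans_lt hn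

theorem H_diff (hm1 : 1 ≤ m) : DifferentiableOn ℂ D.H (ball 0 1) :=
  (D.tlu hm1).differentiableOn (Eventually.of_forall fun n => by fun_prop) isOpen_ball

theorem deriv_tendsto (hm1 : 1 ≤ m) {z : ℂ} (hz : z ∈ ball (0:ℂ) 1) :
    Tendsto (fun n => deriv (fun z => (D.hh n).eval z) z) atTop (𝓝 (deriv D.H z)) := by
  have := (D.tlu hm1).deriv (Eventually.of_forall fun n => by fun_prop) isOpen_ball
  exact this.tendsto_at hz

theorem H_zero (hm1 : 1 ≤ m) : D.H 0 = 1 := by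
  have := D.tendsto_H hm1 (z := 0) (by simp)
  simp only [hh_zero] at this
  exact (tendsto_nhds_unique this tendsto_const_nhds)

theorem exp_le (n : ℕ) {z : ℂ} (hz : ‖z‖ ≤ 1) : ‖exp (-((D.hh n).eval z))‖ ≤ 1 := by
  apply max_mod (fun z => exp (-((D.hh n).eval z))) (by fun_prop) _ hz
  intro w hw
  rw [Complex.norm_exp, Complex.neg_re]
  apply Real.exp_le_one_iff.mpr
  linarith [D.pos n hw]

theorem H_re (hm1 : 1 ≤ m) {z : ℂ} (hz : z ∈ ball (0:ℂ) 1) : 0 ≤ (D.H z).re := by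
  have h1 := (Complex.continuous_re.tendsto _).comp (D.tendsto_H hm1 hz)
  refine ge_of_tendsto h1 (Eventually.of_forall fun n => ?_)
  have h2 := D.exp_le n (mem_ball_zero_iff.mp hz).le
  rw [Complex.norm_exp, Real.exp_le_one_iff, Complex.neg_re] at h2
  simp only [Function.comp]
  linarith

theorem Pt_nonneg (h : ℂ[X]) : 0 ≤ Pt h := by
  unfold Pt
  exact intervalIntegral.integral_nonneg (by linarith [Real.pi_pos]) (fun θ _ => Real.sqrt_nonneg _)

theorem A_nonneg (n : ℕ) : 0 ≤ Aq (D.hh n) (D.c n) := Aq_nonneg _ _ (fun _ hz => D.pos n hz)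

theorem sum_A (n : ℕ) : ∑ k ∈ Finset.range n, Aq (D.hh k) (D.c k) ≤ 32 * (Pt (D.hh 0) + 2) := by
  have h1 : ∀ n, Pt (D.hh n) + 1 / 32 * ∑ k ∈ Finset.range n, Aq (D.hh k) (D.c k) ≤
      Pt (D.hh 0) + ∑ k ∈ Finset.range n, (1 / 2 : ℝ) ^ k := by
    intro n
    induction n with
    | zero => simp
    | succ n ih =>
        rw [Finset.sum_range_succ, Finset.sum_range_succ]
        have := D.hPt n
        unfold hh at *
        linarith
  have h2 : ∑ k ∈ Finset.range n, (1 / 2 : ℝ) ^ k ≤ 2 := by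
    have := sum_geometric_two_le n
    exact this
  have := h1 n
  have h3 := Pt_nonneg (D.hh n)
  linarith

theorem A_tendsto : Tendsto (fun n => Aq (D.hh n) (D.c n)) atTop (𝓝 0) := by
  have : Summable (fun n => Aq (D.hh n) (D.c n)) :=
    summable_of_sum_range_le D.A_nonneg D.sum_A
  exact this.tendsto_atTop_zero

theorem Dn_bound {r B : ℝ} {F : ℕ → ℂ → ℂ} (hr0 : Dn r (F 0) = 0) (hB : 0 ≤ B)
    (hstep : ∀ n, Dn r (F (n + 1)) ≤ Dn r (F n) +
      ENNReal.ofReal ((1 / 2) ^ n + B * Aq (D.hh n) (D.c n))) (n : ℕ) :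
    Dn r (F n) ≤ ENNReal.ofReal (2 + B * (32 * (Pt (D.hh 0) + 2))) := by
  have h1 : ∀ n, Dn r (F n) ≤ ENNReal.ofReal (∑ k ∈ Finset.range n, ((1 / 2) ^ k +
      B * Aq (D.hh k) (D.c k))) := by
    intro n
    induction n with
    | zero => rw [hr0]; exact zero_le
    | succ n ih =>
        rw [Finset.sum_range_succ, ENNReal.ofReal_add]
        · exact (hstep n).trans (by gcongr)
        · exact Finset.sum_nonneg fun k _ => by have := D.A_nonneg k; positivity
        · have := D.A_nonneg n; positivity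
  refine (h1 n).trans (ENNReal.ofReal_le_ofReal ?_)
  rw [Finset.sum_add_distrib, ← Finset.mul_sum]
  have h2 : ∑ k ∈ Finset.range n, (1 / 2 : ℝ) ^ k ≤ 2 := sum_geometric_two_le n
  have h3 := mul_le_mul_of_nonneg_left (D.sum_A n) hB
  linarith

theorem Dn_const {r : ℝ} (hr : 0 < r) (F : ℂ → ℂ) (a : ℂ) (hF : ∀ z, F z = a) : Dn r F = 0 := by
  unfold Dn J
  have : F = fun _ => a := funext hF
  rw [this]
  simp [ENNReal.zero_rpow_of_pos hr]

theorem fatou {r : ℝ} {F : ℕ → ℂ → ℂ} {F0 : ℂ → ℂ}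
    (hlim : ∀ z ∈ ball (0:ℂ) 1, Tendsto (fun n => deriv (F n) z) atTop (𝓝 (deriv F0 z)))
    {C : ℝ≥0∞} (hC : ∀ n, Dn r (F n) ≤ C) : Dn r F0 ≤ C := by
  unfold Dn J at *
  have h1 : ∫⁻ z in ball (0:ℂ) 1, W r z * ‖deriv F0 z‖ₑ ^ r ≤
      ∫⁻ z in ball (0:ℂ) 1, liminf (fun n => W r z * ‖deriv (F n) z‖ₑ ^ r) atTop := by
    refine lintegral_mono_ae ((ae_restrict_iff' measurableSet_ball).mpr
      (Eventually.of_forall fun z hz => ?_))
    have h2 : Tendsto (fun n => W r z * ‖deriv (F n) z‖ₑ ^ r) atTop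
        (𝓝 (W r z * ‖deriv F0 z‖ₑ ^ r)) :=
      ENNReal.Tendsto.const_mul ((hlim z hz).enorm.ennrpow_const r)
        (Or.inr (by unfold W; exact ENNReal.ofReal_ne_top))
    rw [h2.liminf_eq]
  refine h1.trans ((lintegral_liminf_le (fun n => ?_)).trans ?_)
  · exact (W_meas r).mul ((measurable_deriv (F n)).enorm.pow_const r)
  · exact liminf_le_of_le (by isBoundedDefault) (fun b hb => by
      obtain ⟨n, hn⟩ := hb.exists
      exact hn.trans (hC n))

theorem H_Dp (hp : 2 < p) (hm1 : 1 ≤ m) : Dn p D.H < ⊤ := by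
  have h := fatou (r := p) (F := fun n z => (D.hh n).eval z) (F0 := D.H)
    (fun z hz => D.deriv_tendsto hm1 hz)
    (C := ENNReal.ofReal (2 + Cp p * (32 * (Pt (D.hh 0) + 2))))
    (D.Dn_bound (Dn_const (by linarith) _ 1 (fun z => by unfold hh; rw [D.h0]; simp))
      (Cp_nonneg (by linarith)) (fun n => D.hDp n))
  exact h.trans_lt ENNReal.ofReal_lt_top

theorem H_Dq (hq1 : 1 < q) (hm1 : 1 ≤ m) : Dn q (fun z => exp (-(D.H z))) < ⊤ := by
  have hK := (K2_pos m).le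
  have h := fatou (r := q) (F := fun n z => exp (-((D.hh n).eval z)))
    (F0 := fun z => exp (-(D.H z)))
    (fun z hz => by
      have e1 : ∀ n, deriv (fun z => exp (-((D.hh n).eval z))) z =
          -(deriv (fun z => (D.hh n).eval z) z) * exp (-((D.hh n).eval z)) := by
        intro n
        rw [deriv_exp_neg, Polynomial.deriv]
      have e2 : deriv (fun z => exp (-(D.H z))) z = -(deriv D.H z) * exp (-(D.H z)) := by
        have hd : HasDerivAt D.H (deriv D.H z) z :=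
          ((D.H_diff hm1).differentiableAt (isOpen_ball.mem_nhds hz)).hasDerivAt
        have h2 : HasDerivAt (fun z => -(D.H z)) (-(deriv D.H z)) z := hd.neg
        rw [h2.cexp.deriv]
        ring
      simp only [e1, e2]
      exact (D.deriv_tendsto hm1 hz).neg.mul
        ((Complex.continuous_exp.tendsto _).comp (D.tendsto_H hm1 hz).neg))
    (C := ENNReal.ofReal (2 + Cp q * K2 m * (32 * (Pt (D.hh 0) + 2))))
    (D.Dn_bound (Dn_const (by linarith) _ (exp (-1)) (fun z => by unfold hh; rw [D.h0]; simp))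
      (mul_nonneg (Cp_nonneg hq1) hK) (fun n => by
        have := D.hDq n
        rw [mul_assoc]
        exact this))
  exact h.trans_lt ENNReal.ofReal_lt_top

end Data

end H731SI
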