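import Mathlib

/-!
The square root as a Lyapunov function for high frequency perturbations.
-/

set_option autoImplicit false

namespace H731SI

open MeasureTheory Complex Filter Topology
open scoped FourierTransform

/-- Riemann-Lebesgue on `[-π, π]` along integers -/
theorem rl (g : ℝ → ℂ) :
    Tendsto (fun N : ℕ => ∫ θ in (-Real.pi)..Real.pi, g θ * exp (N * θ * I)) atTop (𝓝 0) := by
  have h := Real.tendsto_integral_exp_smul_cocompact
    (fun v : ℝ => (Set.Ioc (-Real.pi) Real.pi).indicator g v)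
  have hw : Tendsto (fun N : ℕ => -((N : ℝ) / (2 * Real.pi))) atTop (cocompact ℝ) := by
    rw [cocompact_eq_atBot_atTop]
    apply Tendsto.mono_right _ le_sup_left
    apply tendsto_neg_atTop_atBot.comp
    exact tendsto_natCast_atTop_atTop.atTop_div_const (by positivity)
  refine (h.comp hw).congr fun N => ?_
  simp only [Function.comp]
  rw [intervalIntegral.integral_of_le (by linarith [Real.pi_pos]),
    ← integral_indicator measurableSet_Ioc]
  refine integral_congr_ae (Eventually.of_forall fun θ => ?_)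
  simp only [Set.indicator_apply]
  split_ifs
  · rw [Circle.smul_def, Real.fourierChar_apply, smul_eq_mul, mul_comm]
    congr 2
    push_cast
    have : (Real.pi : ℂ) ≠ 0 := by exact_mod_cast Real.pi_ne_zero
    field_simp
  · simp

theorem sqrt_ineq {m x : ℝ} (hm : 0 < m) (hx : |x| ≤ m) :
    √(m + x) ≤ √m + x / (2 * √m) - x ^ 2 / (16 * (m * √m)) := by
  have hs : 0 < √m := Real.sqrt_pos.mpr hm
  have hs2 : √m * √m = m := Real.mul_self_sqrt hm.le
  obtain ⟨h1, h2⟩ := abs_le.mp hx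
  have e : √m + x / (2 * √m) - x ^ 2 / (16 * (m * √m)) =
      (16 * m ^ 2 + 8 * m * x - x ^ 2) / (16 * (m * √m)) := by
    field_simp
    rw [Real.sq_sqrt hm.le]
    ring
  rw [e]
  apply Real.sqrt_le_iff.mpr
  constructor
  · apply div_nonneg _ (by positivity)
    nlinarith
  · rw [div_pow, le_div_iff₀ (by positivity)]
    have e2 : (16 * (m * √m)) ^ 2 = 256 * m ^ 3 := by
      rw [mul_pow, mul_pow, Real.sq_sqrt hm.le]
      ring
    rw [e2]
    have h3 : 0 ≤ x ^ 2 * (32 * m ^ 2 - 16 * m * x + x ^ 2) := by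
      apply mul_nonneg (sq_nonneg _)
      nlinarith
    nlinarith

theorem re_sq (w : ℂ) : w.re ^ 2 = (‖w‖ ^ 2 + (w ^ 2).re) / 2 := by
  rw [← Complex.normSq_eq_norm_sq, Complex.normSq_apply, pow_two w, Complex.mul_re]
  ring

theorem sqrt_step {m : ℝ → ℝ} {c : ℝ → ℂ} (hm : Continuous m) (hm0 : ∀ θ, 0 < m θ)
    (hc : Continuous c) (hcm : ∀ θ, ‖c θ‖ ≤ m θ) {ε : ℝ} (hε : 0 < ε) :
    ∀ᶠ N : ℕ in atTop, ∫ θ in (-Real.pi)..Real.pi, √(m θ + (c θ * exp (N * θ * I)).re) ≤
      (∫ θ in (-Real.pi)..Real.pi, √(m θ)) -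
        1 / 32 * (∫ θ in (-Real.pi)..Real.pi, ‖c θ‖ ^ 2 / (m θ * √(m θ))) + ε := by
  have hsm : ∀ θ, √(m θ) ≠ 0 := fun θ => (Real.sqrt_pos.mpr (hm0 θ)).ne'
  have hmm : ∀ θ, m θ ≠ 0 := fun θ => (hm0 θ).ne'
  set g1 : ℝ → ℂ := fun θ => c θ / (2 * √(m θ) : ℝ) with hg1
  set g2 : ℝ → ℂ := fun θ => c θ ^ 2 / (32 * (m θ * √(m θ)) : ℝ) with hg2
  have hg1c : Continuous g1 := by
    apply hc.div (by fun_prop)
    intro θ
    have := hsm θ
    exact_mod_cast (by positivity : (2 * √(m θ) : ℝ) ≠ 0)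
  have hg2c : Continuous g2 := by
    apply (hc.pow 2).div (by fun_prop)
    intro θ
    have := hsm θ
    have := hmm θ
    exact_mod_cast (by positivity : (32 * (m θ * √(m θ)) : ℝ) ≠ 0)
  have hpi : -Real.pi ≤ Real.pi := by linarith [Real.pi_pos]
  have t1 := rl g1
  have t2 : Tendsto (fun N : ℕ => ∫ θ in (-Real.pi)..Real.pi, g2 θ * exp ((2 * N : ℕ) * θ * I))
      atTop (𝓝 0) :=
    (rl g2).comp (tendsto_id.const_mul_atTop' (by norm_num : 0 < 2))
  have e1 := (Metric.tendsto_atTop.mp t1 (ε / 2) (by positivity))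
  have e2 := (Metric.tendsto_atTop.mp t2 (ε / 2) (by positivity))
  obtain ⟨N1, hN1⟩ := e1
  obtain ⟨N2, hN2⟩ := e2
  filter_upwards [eventually_ge_atTop N1, eventually_ge_atTop N2] with N h1 h2
  have h1 := hN1 N h1
  have h2 := hN2 N h2
  rw [dist_zero_right] at h1 h2
  have c1 : Continuous fun θ : ℝ => g1 θ * exp (N * θ * I) := hg1c.mul (by fun_prop)
  have c2 : Continuous fun θ : ℝ => g2 θ * exp ((2 * N : ℕ) * θ * I) := hg2c.mul (by fun_prop)
  have c3 : Continuous fun θ : ℝ => √(m θ) := by fun_prop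
  have c4 : Continuous fun θ : ℝ => ‖c θ‖ ^ 2 / (m θ * √(m θ)) := by
    apply Continuous.div (by fun_prop) (by fun_prop)
    intro θ
    exact mul_ne_zero (hmm θ) (hsm θ)
  have hpt : ∀ θ, √(m θ + (c θ * exp (N * θ * I)).re) ≤ √(m θ) + (g1 θ * exp (N * θ * I)).re -
      (1 / 32 * (‖c θ‖ ^ 2 / (m θ * √(m θ))) + (g2 θ * exp ((2 * N : ℕ) * θ * I)).re) := by
    intro θ
    have hn : ‖exp (N * θ * I)‖ = 1 := by
      have := Complex.norm_exp_ofReal_mul_I (N * θ)
      push_cast at this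
      exact this
    have hx : |(c θ * exp (N * θ * I)).re| ≤ m θ := by
      refine (Complex.abs_re_le_norm _).trans ?_
      rw [norm_mul, hn, mul_one]
      exact hcm θ
    refine (sqrt_ineq (hm0 θ) hx).trans (le_of_eq ?_)
    rw [re_sq, norm_mul, hn, mul_one]
    have a1 : (g1 θ * exp (N * θ * I)).re = (c θ * exp (N * θ * I)).re / (2 * √(m θ)) := by
      simp only [hg1]
      rw [div_mul_eq_mul_div, Complex.div_ofReal_re]
    have a2 : (g2 θ * exp ((2 * N : ℕ) * θ * I)).re =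
        ((c θ * exp (N * θ * I)) ^ 2).re / (32 * (m θ * √(m θ))) := by
      simp only [hg2]
      rw [div_mul_eq_mul_div, Complex.div_ofReal_re, mul_pow, ← Complex.exp_nat_mul]
      congr 4
      push_cast
      ring
    rw [a1, a2]
    have := hsm θ
    have := hmm θ
    field_simp
    ring
  have hcL : Continuous fun θ : ℝ => √(m θ + (c θ * exp (N * θ * I)).re) := by
    apply Continuous.sqrt
    apply hm.add
    exact Complex.continuous_re.comp (hc.mul (by fun_prop))
  have r1 : Continuous fun θ : ℝ => (g1 θ * exp (N * θ * I)).re := Complex.continuous_re.comp c1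
  have r2 : Continuous fun θ : ℝ => (g2 θ * exp ((2 * N : ℕ) * θ * I)).re :=
    Complex.continuous_re.comp c2
  have i0 : IntervalIntegrable (fun θ : ℝ => √(m θ) + (g1 θ * exp (N * θ * I)).re -
      (1 / 32 * (‖c θ‖ ^ 2 / (m θ * √(m θ))) + (g2 θ * exp ((2 * N : ℕ) * θ * I)).re)) volume
      (-Real.pi) Real.pi := ((c3.add r1).sub ((c4.const_mul (1/32)).add r2)).intervalIntegrable _ _
  have hI := intervalIntegral.integral_mono (μ := volume) hpi (hcL.intervalIntegrable _ _)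
    i0 hpt
  have s1 : ∫ θ in (-Real.pi)..Real.pi, (g1 θ * exp (N * θ * I)).re =
      (∫ θ in (-Real.pi)..Real.pi, g1 θ * exp (N * θ * I)).re := by
    exact Complex.reCLM.intervalIntegral_comp_comm (c1.intervalIntegrable _ _)
  have s2 : ∫ θ in (-Real.pi)..Real.pi, (g2 θ * exp ((2 * N : ℕ) * θ * I)).re =
      (∫ θ in (-Real.pi)..Real.pi, g2 θ * exp ((2 * N : ℕ) * θ * I)).re := by
    exact Complex.reCLM.intervalIntegral_comp_comm (c2.intervalIntegrable _ _)
  have hsum : ∫ θ in (-Real.pi)..Real.pi, (√(m θ) + (g1 θ * exp (N * θ * I)).re -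
      (1 / 32 * (‖c θ‖ ^ 2 / (m θ * √(m θ))) + (g2 θ * exp ((2 * N : ℕ) * θ * I)).re)) =
      (∫ θ in (-Real.pi)..Real.pi, √(m θ)) + (∫ θ in (-Real.pi)..Real.pi, g1 θ * exp (N * θ * I)).re -
      (1 / 32 * (∫ θ in (-Real.pi)..Real.pi, ‖c θ‖ ^ 2 / (m θ * √(m θ))) +
        (∫ θ in (-Real.pi)..Real.pi, g2 θ * exp ((2 * N : ℕ) * θ * I)).re) := by
    have i1 : IntervalIntegrable (fun θ : ℝ => √(m θ) + (g1 θ * exp (N * θ * I)).re) volume
        (-Real.pi) Real.pi := (c3.add r1).intervalIntegrable _ _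
    have i2 : IntervalIntegrable (fun θ : ℝ => 1 / 32 * (‖c θ‖ ^ 2 / (m θ * √(m θ))) +
        (g2 θ * exp ((2 * N : ℕ) * θ * I)).re) volume (-Real.pi) Real.pi :=
      ((c4.const_mul (1/32)).add r2).intervalIntegrable _ _
    have i3 : IntervalIntegrable (fun θ : ℝ => 1 / 32 * (‖c θ‖ ^ 2 / (m θ * √(m θ)))) volume
        (-Real.pi) Real.pi := (c4.const_mul (1/32)).intervalIntegrable _ _
    rw [intervalIntegral.integral_sub i1 i2,
      intervalIntegral.integral_add (c3.intervalIntegrable _ _) (r1.intervalIntegrable _ _),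
      intervalIntegral.integral_add i3 (r2.intervalIntegrable _ _),
      intervalIntegral.integral_const_mul, s1, s2]
  have k1 := (Complex.re_le_norm (∫ θ in (-Real.pi)..Real.pi, g1 θ * exp (N * θ * I)))
  have k2 := (Complex.abs_re_le_norm
    (∫ θ in (-Real.pi)..Real.pi, g2 θ * exp ((2 * N : ℕ) * θ * I)))
  have k3 := (abs_le.mp k2).1
  refine hI.trans ?_
  rw [hsum]
  linarith

end H731SI
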