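import Pool.Agent.H731_SI.Duality

/-!
Bounded functions of unimodular boundary values in the dual space are not cyclic.
-/

set_option autoImplicit false

namespace H731SI

open MeasureTheory Complex Filter Topology Metric H731Dp Polynomial
open scoped ENNReal ComplexConjugate

theorem mean_val {g : ℂ → ℂ} (hg : DifferentiableOn ℂ g (ball 0 1)) {r : ℝ} (h0 : 0 < r)
    (h1 : r < 1) : ∫ θ in (-Real.pi)..Real.pi, g (r * exp (θ * I)) = 2 * Real.pi * g 0 := by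
  have h2 := int_coeff (n := 0) h0.le (co_summable hg h0.le h1) (h := g)
    (fun z hz => co_hasSum hg (by rw [mem_ball_zero_iff, hz]; exact h1))
  simp only [pow_zero, map_one, mul_one, co_zero] at h2
  exact h2

theorem Q_bound (Q : ℂ[X]) : ∃ B : ℝ, 0 ≤ B ∧ ∀ z ∈ ball (0:ℂ) 1, ‖Q.eval z‖ ≤ B := by
  obtain ⟨B, hB⟩ := (isCompact_closedBall (0:ℂ) 1).exists_bound_of_continuousOn
    (f := fun z => Q.eval z) (by fun_prop)
  refine ⟨B, (norm_nonneg _).trans (hB 0 (by simp)), fun z hz => hB z ?_⟩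
  exact ball_subset_closedBall hz

/-- the pairing of `Q f - 1` with `f` in the limit -/
theorem pair_tendsto {f : ℂ → ℂ} (hf : DifferentiableOn ℂ f (ball 0 1))
    (h1 : ∀ z ∈ ball (0:ℂ) 1, ‖f z‖ ≤ 1) {ρ : ℕ → ℝ} (hρ : ∀ n, 0 < ρ n ∧ ρ n < 1)
    (hlim : Tendsto (fun n => ∫ θ in (-Real.pi)..Real.pi,
      (1 - ‖f (ρ n * exp (θ * I))‖ ^ 2)) atTop (𝓝 0)) (Q : ℂ[X]) :
    Tendsto (fun n => (∫ θ in (-Real.pi)..Real.pi, (Q.eval (ρ n * exp (θ * I)) *
        f (ρ n * exp (θ * I)) - 1) * conj (f (ρ n * exp (θ * I)))) -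
        2 * Real.pi * ((Q.eval 0 * f 0 - 1) * conj (f 0))) atTop
      (𝓝 (2 * Real.pi * (Q.eval 0 * (1 - ‖f 0‖ ^ 2 : ℝ)))) := by
  obtain ⟨B, hB0, hB⟩ := Q_bound Q
  have hpi : -Real.pi ≤ Real.pi := by linarith [Real.pi_pos]
  have hmem : ∀ n, ∀ θ : ℝ, (ρ n : ℂ) * exp (θ * I) ∈ ball (0:ℂ) 1 := by
    intro n θ
    rw [mem_ball_zero_iff, norm_mul, Complex.norm_exp_ofReal_mul_I, mul_one,
      Complex.norm_real, Real.norm_eq_abs, abs_of_pos (hρ n).1]
    exact (hρ n).2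
  have hfc : ∀ n, Continuous fun θ : ℝ => f (ρ n * exp (θ * I)) := fun n =>
    hf.continuousOn.comp_continuous (by fun_prop) (hmem n)
  have hQc : ∀ n, Continuous fun θ : ℝ => Q.eval ((ρ n : ℂ) * exp (θ * I)) := fun n => by fun_prop
  have e1 : ∀ n, (∫ θ in (-Real.pi)..Real.pi, (Q.eval (ρ n * exp (θ * I)) *
        f (ρ n * exp (θ * I)) - 1) * conj (f (ρ n * exp (θ * I)))) =
      2 * Real.pi * Q.eval 0 - 2 * Real.pi * conj (f 0) -
        ∫ θ in (-Real.pi)..Real.pi, Q.eval (ρ n * exp (θ * I)) *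
          ((1 - ‖f (ρ n * exp (θ * I))‖ ^ 2 : ℝ) : ℂ) := by
    intro n
    have h2 : ∫ θ in (-Real.pi)..Real.pi, Q.eval ((ρ n : ℂ) * exp (θ * I)) =
        2 * Real.pi * Q.eval 0 := mean_val (g := fun z => Q.eval z) (by fun_prop) (hρ n).1 (hρ n).2
    have h3 : ∫ θ in (-Real.pi)..Real.pi, conj (f (ρ n * exp (θ * I))) =
        2 * Real.pi * conj (f 0) := by
      have h4 := mean_val hf (hρ n).1 (hρ n).2
      have h5 : (∫ θ in (-Real.pi)..Real.pi, conj (f (ρ n * exp (θ * I)))) =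
          conj (∫ θ in (-Real.pi)..Real.pi, f (ρ n * exp (θ * I))) := by
        rw [intervalIntegral.integral_of_le hpi, intervalIntegral.integral_of_le hpi]
        rw [← integral_conj]
      rw [h5, h4]
      simp only [map_mul, Complex.conj_ofReal, map_ofNat]
    have hc3 : Continuous fun θ : ℝ => conj (f (ρ n * exp (θ * I))) :=
      Complex.continuous_conj.comp (hfc n)
    have hc4 : Continuous fun θ : ℝ => Q.eval (ρ n * exp (θ * I)) *
          ((1 - ‖f (ρ n * exp (θ * I))‖ ^ 2 : ℝ) : ℂ) := by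
      refine (hQc n).mul (Complex.continuous_ofReal.comp ?_)
      exact continuous_const.sub ((hfc n).norm.pow 2)
    have hc6 : Continuous fun θ : ℝ => Q.eval ((ρ n : ℂ) * exp (θ * I)) -
        conj (f (ρ n * exp (θ * I))) := (hQc n).sub hc3
    rw [← h2, ← h3, ← intervalIntegral.integral_sub ((hQc n).intervalIntegrable _ _)
      (hc3.intervalIntegrable _ _), ← intervalIntegral.integral_sub
      (hc6.intervalIntegrable _ _) (hc4.intervalIntegrable _ _)]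
    refine intervalIntegral.integral_congr fun θ _ => ?_
    have h6 : f (ρ n * exp (θ * I)) * conj (f (ρ n * exp (θ * I))) =
        ((‖f (ρ n * exp (θ * I))‖ ^ 2 : ℝ) : ℂ) := by
      rw [Complex.mul_conj, Complex.normSq_eq_norm_sq]
    push_cast at h6 ⊢
    rw [sub_mul, mul_assoc, h6]
    ring
  have h2 : Tendsto (fun n => ∫ θ in (-Real.pi)..Real.pi, Q.eval (ρ n * exp (θ * I)) *
          ((1 - ‖f (ρ n * exp (θ * I))‖ ^ 2 : ℝ) : ℂ)) atTop (𝓝 0) := by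
    apply squeeze_zero_norm (a := fun n => B * ∫ θ in (-Real.pi)..Real.pi,
      (1 - ‖f (ρ n * exp (θ * I))‖ ^ 2))
    · intro n
      rw [← intervalIntegral.integral_const_mul]
      refine (intervalIntegral.norm_integral_le_integral_norm hpi).trans ?_
      have hc5 : Continuous fun θ : ℝ => 1 - ‖f (ρ n * exp (θ * I))‖ ^ 2 :=
        continuous_const.sub ((hfc n).norm.pow 2)
      apply intervalIntegral.integral_mono_on hpi
      · apply Continuous.intervalIntegrable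
        exact ((hQc n).mul (Complex.continuous_ofReal.comp hc5)).norm
      · exact (hc5.const_mul B).intervalIntegrable _ _
      · intro θ _
        have h5 : 0 ≤ 1 - ‖f (ρ n * exp (θ * I))‖ ^ 2 := by
          have := pow_le_one₀ (n := 2) (norm_nonneg _) (h1 _ (hmem n θ))
          linarith
        rw [norm_mul, Complex.norm_real, Real.norm_eq_abs, abs_of_nonneg h5]
        gcongr
        exact hB _ (hmem n θ)
    · simpa using hlim.const_mul B
  have e2 : 2 * Real.pi * (Q.eval 0 * (1 - ‖f 0‖ ^ 2 : ℝ)) =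
      2 * Real.pi * Q.eval 0 - 2 * Real.pi * conj (f 0) - 0 -
        2 * Real.pi * ((Q.eval 0 * f 0 - 1) * conj (f 0)) := by
    have h6 : f 0 * conj (f 0) = ((‖f 0‖ ^ 2 : ℝ) : ℂ) := by
      rw [Complex.mul_conj, Complex.normSq_eq_norm_sq]
    push_cast at h6 ⊢
    rw [← h6]
    ring
  rw [e2]
  simp_rw [e1]
  exact (tendsto_const_nhds.sub h2).sub_const _

theorem key_bound {p q : ℝ} (hpq : p.HolderConjugate q) {f : ℂ → ℂ}
    (hf : DifferentiableOn ℂ f (ball 0 1))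
    (h1 : ∀ z ∈ ball (0:ℂ) 1, ‖f z‖ ≤ 1) (h0 : ‖f 0‖ < 1) (hq : Dn q f < ⊤)
    {ρ : ℕ → ℝ} (hρ : ∀ n, 0 < ρ n ∧ ρ n < 1)
    (hlim : Tendsto (fun n => ∫ θ in (-Real.pi)..Real.pi,
      (1 - ‖f (ρ n * exp (θ * I))‖ ^ 2)) atTop (𝓝 0)) :
    ∃ K : ℝ≥0∞, K ≠ ⊤ ∧ ∀ Q : ℂ[X],
      ‖Q.eval 0‖ₑ ≤ K * Dn p (fun z => Q.eval z * f z - 1) ^ (1 / p) := by
  set K := 4 * J q (fun z => (‖deriv f z‖ₑ + 3) ^ q) ^ (1 / q) with hK
  have hKf : K ≠ ⊤ := const_fin hpq.symm.lt.le hq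
  set c : ℝ := 2 * Real.pi * (1 - ‖f 0‖ ^ 2) with hc
  have hc0 : 0 < c := by
    have : ‖f 0‖ ^ 2 < 1 := by
      have := norm_nonneg (f 0)
      nlinarith
    have := Real.pi_pos
    have h3 : 0 < 1 - ‖f 0‖ ^ 2 := by linarith
    positivity
  refine ⟨ENNReal.ofReal c⁻¹ * K, ENNReal.mul_ne_top ENNReal.ofReal_ne_top hKf, fun Q => ?_⟩
  have h2 := (pair_tendsto hf h1 hρ hlim Q).enorm
  have h3 : ‖(2 * Real.pi * (Q.eval 0 * (1 - ‖f 0‖ ^ 2 : ℝ)) : ℂ)‖ₑ ≤
      K * Dn p (fun z => Q.eval z * f z - 1) ^ (1 / p) := by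
    refine le_of_tendsto' h2 fun n => ?_
    have hu : DifferentiableOn ℂ (fun z => Q.eval z * f z - 1) (ball 0 1) := by
      apply DifferentiableOn.sub_const
      exact (Polynomial.differentiable Q).differentiableOn.mul hf
    exact (pair_bound hu hf h1 (hρ n).1 (hρ n).2).trans (holder_bound hpq _ _)
  have e : (2 * Real.pi * (Q.eval 0 * (1 - ‖f 0‖ ^ 2 : ℝ)) : ℂ) = (c : ℂ) * Q.eval 0 := by
    rw [hc]
    push_cast
    ring
  rw [e, enorm_mul] at h3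
  have e2 : ‖(c : ℂ)‖ₑ = ENNReal.ofReal c := by
    rw [← ofReal_norm, Complex.norm_real, Real.norm_eq_abs, abs_of_pos hc0]
  rw [e2] at h3
  calc ‖Q.eval 0‖ₑ = ENNReal.ofReal c⁻¹ * (ENNReal.ofReal c * ‖Q.eval 0‖ₑ) := by
        rw [← mul_assoc, ← ENNReal.ofReal_mul (by positivity), inv_mul_cancel₀ hc0.ne',
          ENNReal.ofReal_one, one_mul]
    _ ≤ ENNReal.ofReal c⁻¹ * (K * Dn p (fun z => Q.eval z * f z - 1) ^ (1 / p)) := by gcongr
    _ = _ := by ring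

/-- no sequence of polynomials works -/
theorem not_tendsto {p q : ℝ} (hpq : p.HolderConjugate q) {f : ℂ → ℂ}
    (hf : DifferentiableOn ℂ f (ball 0 1))
    (h1 : ∀ z ∈ ball (0:ℂ) 1, ‖f z‖ ≤ 1) (h0 : ‖f 0‖ < 1) (hq : Dn q f < ⊤)
    {ρ : ℕ → ℝ} (hρ : ∀ n, 0 < ρ n ∧ ρ n < 1)
    (hlim : Tendsto (fun n => ∫ θ in (-Real.pi)..Real.pi,
      (1 - ‖f (ρ n * exp (θ * I))‖ ^ 2)) atTop (𝓝 0)) (Q : ℕ → ℂ[X]) :
    ¬ Tendsto (fun n => ‖(Q n).eval 0 * f 0 - 1‖ₑ +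
      Dn p (fun z => (Q n).eval z * f z - 1) ^ (1 / p)) atTop (𝓝 0) := by
  intro h
  obtain ⟨K, hK, hb⟩ := key_bound hpq hf h1 h0 hq hρ hlim
  have h2 : Tendsto (fun n => Dn p (fun z => (Q n).eval z * f z - 1) ^ (1 / p)) atTop (𝓝 0) :=
    tendsto_of_tendsto_of_tendsto_of_le_of_le tendsto_const_nhds h (fun _ => zero_le)
      (fun n => le_add_self)
  have h3 : Tendsto (fun n => ‖(Q n).eval 0 * f 0 - 1‖ₑ) atTop (𝓝 0) :=
    tendsto_of_tendsto_of_tendsto_of_le_of_le tendsto_const_nhds h (fun _ => zero_le)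
      (fun n => le_self_add)
  have h4 : Tendsto (fun n => ‖(Q n).eval 0‖ₑ) atTop (𝓝 0) := by
    have h5 := ENNReal.Tendsto.const_mul h2 (Or.inr hK)
    rw [mul_zero] at h5
    exact tendsto_of_tendsto_of_tendsto_of_le_of_le tendsto_const_nhds h5 (fun _ => zero_le)
      (fun n => hb (Q n))
  rw [tendsto_zero_iff_enorm_tendsto_zero.symm] at h3 h4
  have h5 : Tendsto (fun n => (Q n).eval 0 * f 0 - 1) atTop (𝓝 (0 * f 0 - 1)) :=
    (h4.mul_const _).sub_const _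
  have := tendsto_nhds_unique h3 h5
  simp at this

end H731SI
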