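import Mathlib

/-!
Pointwise inequalities between the step sizes and the Lyapunov decrease.
-/

set_option autoImplicit false

namespace H731SI

theorem pw1 {p : ℝ} (hp : 2 < p) {m : ℕ} (hm : 3 / 2 ≤ ((m : ℝ) - 1) * (p - 2)) {y x : ℝ}
    (hy : 0 < y) (hx0 : 0 ≤ x) (hx : x ≤ y / (2 * (1 + y) ^ m)) :
    x ^ p ≤ x ^ 2 / (y * √y) := by
  rcases hx0.eq_or_lt with h | h
  · rw [← h, Real.zero_rpow (by linarith)]
    positivity
  have hy1 : 0 < 1 + y := by linarith
  have e : x ^ p = x ^ 2 * x ^ (p - 2) := by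
    rw [← Real.rpow_natCast x 2, ← Real.rpow_add h]
    congr 1
    push_cast
    ring
  have h1 : x ≤ (1 + y) ^ (1 - (m:ℝ)) := by
    rw [Real.rpow_sub hy1, Real.rpow_one, Real.rpow_natCast]
    refine hx.trans ?_
    rw [div_le_div_iff₀ (by positivity) (by positivity)]
    have : 0 < (1 + y) ^ m := by positivity
    nlinarith
  have h2 : x ^ (p - 2) ≤ (y * √y)⁻¹ := by
    calc x ^ (p - 2) ≤ ((1 + y) ^ (1 - (m:ℝ))) ^ (p - 2) :=
          Real.rpow_le_rpow hx0 h1 (by linarith)
      _ = (1 + y) ^ (-(((m:ℝ) - 1) * (p - 2))) := by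
          rw [← Real.rpow_mul hy1.le]
          congr 1
          ring
      _ ≤ (1 + y) ^ (-(3/2 : ℝ)) := by
          apply Real.rpow_le_rpow_of_exponent_le (by linarith)
          linarith
      _ ≤ y ^ (-(3/2 : ℝ)) := by
          apply Real.rpow_le_rpow_of_nonpos hy (by linarith) (by norm_num)
      _ = (y * √y)⁻¹ := by
          rw [Real.rpow_neg hy.le, Real.sqrt_eq_rpow]
          congr 1
          nth_rw 2 [← Real.rpow_one y]
          rw [← Real.rpow_add hy]
          norm_num
  rw [e, div_eq_mul_inv]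
  gcongr

/-- the constant of the second inequality -/
noncomputable def K2 (m : ℕ) : ℝ := 4 * Real.exp 2 * (m + 1).factorial

theorem K2_pos (m : ℕ) : 0 < K2 m := by unfold K2; positivity

theorem pw2 {q : ℝ} (hq1 : 1 < q) (hq2 : q < 2) {m : ℕ} (hm : 1 ≤ m) {y x : ℝ}
    (hy : 0 < y) (hx1 : y / (4 * (1 + y) ^ m) ≤ x) (hx : x ≤ y / (2 * (1 + y) ^ m)) :
    (x * Real.exp (-y + x)) ^ q ≤ K2 m * (x ^ 2 / (y * √y)) := by
  have hy1 : 0 < 1 + y := by linarith
  have hx0 : 0 < x := lt_of_lt_of_le (by positivity) hx1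
  have hpow : 1 + y ≤ (1 + y) ^ m := by
    calc 1 + y = (1 + y) ^ 1 := (pow_one _).symm
      _ ≤ (1 + y) ^ m := pow_le_pow_right₀ (by linarith) hm
  have hxh : x ≤ 1 / 2 := by
    refine hx.trans ?_
    rw [div_le_div_iff₀ (by positivity) (by norm_num)]
    linarith
  have e : (x * Real.exp (-y + x)) ^ q = x ^ q * Real.exp (q * (-y + x)) := by
    rw [Real.mul_rpow hx0.le (Real.exp_pos _).le, ← Real.exp_mul]
    congr 2
    ring
  have h1 : Real.exp (q * (-y + x)) ≤ Real.exp 1 * Real.exp (-y) := by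
    rw [← Real.exp_add]
    apply Real.exp_le_exp.mpr
    nlinarith
  have h2 : x ^ q = x ^ 2 / x ^ (2 - q) := by
    rw [Real.rpow_sub hx0, Real.rpow_ofNat]
    have : x ^ q ≠ 0 := (Real.rpow_pos_of_pos hx0 _).ne'
    field_simp
  have h3 : x ≤ x ^ (2 - q) := by
    calc x = x ^ (1:ℝ) := (Real.rpow_one x).symm
      _ ≤ x ^ (2 - q) := by
          apply Real.rpow_le_rpow_of_exponent_ge hx0 (by linarith) (by linarith)
  have h4 : (1 + y) ^ (m + 1) ≤ (m + 1).factorial * Real.exp (1 + y) := by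
    have := Real.pow_div_factorial_le_exp (1 + y) hy1.le (m + 1)
    rw [div_le_iff₀ (by positivity)] at this
    linarith
  have h5 : √y ≤ 1 + y := by
    rw [Real.sqrt_le_left hy1.le]
    nlinarith
  have h6 : Real.exp 1 * Real.exp (-y) * (y * √y) ≤ K2 m * x ^ (2 - q) := by
    calc Real.exp 1 * Real.exp (-y) * (y * √y) ≤ K2 m * (y / (4 * (1 + y) ^ m)) := by
          rw [← mul_div_assoc, le_div_iff₀ (by positivity)]
          calc Real.exp 1 * Real.exp (-y) * (y * √y) * (4 * (1 + y) ^ m)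
              ≤ Real.exp 1 * Real.exp (-y) * (y * (1 + y)) * (4 * (1 + y) ^ m) := by gcongr
            _ = 4 * (Real.exp 1 * Real.exp (-y)) * y * (1 + y) ^ (m + 1) := by ring
            _ ≤ 4 * (Real.exp 1 * Real.exp (-y)) * y * ((m + 1).factorial * Real.exp (1 + y)) := by
                gcongr
            _ = 4 * (m + 1).factorial * y * (Real.exp 1 * Real.exp (-y) * Real.exp (1 + y)) := by
                ring
            _ = K2 m * y := by
                rw [← Real.exp_add, ← Real.exp_add]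
                unfold K2
                rw [show (1 + -y + (1 + y) : ℝ) = 2 by ring]
                ring
      _ ≤ K2 m * x := by
          have := K2_pos m
          gcongr
      _ ≤ K2 m * x ^ (2 - q) := by
          have := K2_pos m
          gcongr
  have hxq : 0 < x ^ (2 - q) := Real.rpow_pos_of_pos hx0 _
  have hyy : 0 < y * √y := by
    have := Real.sqrt_pos.mpr hy
    positivity
  rw [e]
  calc x ^ q * Real.exp (q * (-y + x)) ≤ x ^ q * (Real.exp 1 * Real.exp (-y)) := by
        have := Real.rpow_pos_of_pos hx0 q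
        gcongr
    _ = x ^ 2 * (Real.exp 1 * Real.exp (-y)) / x ^ (2 - q) := by rw [h2]; ring
    _ ≤ x ^ 2 * (K2 m * x ^ (2 - q) / (y * √y)) / x ^ (2 - q) := by
        gcongr
        rw [le_div_iff₀ hyy]
        exact h6
    _ = K2 m * (x ^ 2 / (y * √y)) := by
        field_simp

end H731SI
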