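import Pool.Agent.H731_Dp.Cont
import Pool.Agent.H731_Dp.LP

/-!
A radial integral, uniformly in the frequency.
-/

set_option autoImplicit false

namespace H731SI

open MeasureTheory Complex Filter Topology Metric H731Dp
open scoped ENNReal

/-- the constant of the radial integral -/
noncomputable def Cr (p : ℝ) : ℝ := (2 / p) ^ p * Real.Gamma p

theorem Cr_nonneg {p : ℝ} (hp : 1 < p) : 0 ≤ Cr p := by
  unfold Cr
  have := Real.Gamma_pos_of_pos (show 0 < p by linarith)
  positivity

theorem gker_int {p : ℝ} (hp : 1 < p) {b : ℝ} (hb : 0 < b) :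
    IntegrableOn (fun t : ℝ => t ^ (p - 1) * Real.exp (-(b * t))) (Set.Ioi 0) := by
  have := integrableOn_rpow_mul_exp_neg_mul_rpow (p := 1) (s := p - 1) (b := b)
    (by linarith) one_pos hb
  refine this.congr_fun (fun t _ => ?_) measurableSet_Ioi
  simp only [Real.rpow_one]
  ring_nf

theorem radial_ker {p : ℝ} (hp : 1 < p) {N : ℕ} (hN : 2 ≤ N) :
    ∫⁻ r in Set.Ioo (0:ℝ) 1, ENNReal.ofReal ((1 - r) ^ (p - 1) * ((N : ℝ) * r ^ (N - 1)) ^ p) ≤
      ENNReal.ofReal (Cr p) := by
  have hN' : (2:ℝ) ≤ N := by exact_mod_cast hN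
  have hN0 : (0:ℝ) < N := by linarith
  have hp0 : 0 < p := by linarith
  set b : ℝ := N * p / 2 with hb
  have hb0 : 0 < b := by positivity
  set g : ℝ → ℝ := fun t => (N:ℝ) ^ p * (t ^ (p - 1) * Real.exp (-(b * t))) with hg
  have hgi : IntegrableOn g (Set.Ioi 0) := (gker_int hp hb0).const_mul _
  have hg0 : ∀ t, 0 < t → 0 ≤ g t := fun t ht => by simp only [hg]; positivity
  have h1 : ∫⁻ r in Set.Ioo (0:ℝ) 1, ENNReal.ofReal ((1 - r) ^ (p - 1) *
      ((N : ℝ) * r ^ (N - 1)) ^ p) ≤ ∫⁻ r in Set.Ioo (0:ℝ) 1, ENNReal.ofReal (g (1 - r)) := by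
    refine setLIntegral_mono' measurableSet_Ioo fun r hr => ?_
    apply ENNReal.ofReal_le_ofReal
    simp only [hg]
    have hr1 : r ≤ Real.exp (-(1 - r)) := by
      have := Real.add_one_le_exp (-(1 - r))
      linarith
    have h2 : r ^ (N - 1) ≤ Real.exp (-(N / 2 * (1 - r))) := by
      calc r ^ (N - 1) ≤ (Real.exp (-(1 - r))) ^ (N - 1) := by
            gcongr
            exact hr.1.le
        _ = Real.exp (((N - 1 : ℕ) : ℝ) * (-(1 - r))) := by rw [← Real.exp_nat_mul]
        _ ≤ _ := by
            apply Real.exp_le_exp.mpr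
            rw [Nat.cast_sub (by omega)]
            push_cast
            nlinarith [hr.2]
    have h3 : ((N : ℝ) * r ^ (N - 1)) ^ p ≤ (N:ℝ) ^ p * Real.exp (-(b * (1 - r))) := by
      rw [Real.mul_rpow hN0.le (by have := hr.1; positivity)]
      gcongr
      calc (r ^ (N - 1)) ^ p ≤ (Real.exp (-(N / 2 * (1 - r)))) ^ p := by
            apply Real.rpow_le_rpow _ h2 hp0.le
            have := hr.1
            positivity
        _ = Real.exp (-(b * (1 - r))) := by
            rw [← Real.exp_mul]
            congr 1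
            rw [hb]
            ring
    have h4 : 0 ≤ (1 - r) ^ (p - 1) := Real.rpow_nonneg (by linarith [hr.2]) _
    calc (1 - r) ^ (p - 1) * ((N : ℝ) * r ^ (N - 1)) ^ p
        ≤ (1 - r) ^ (p - 1) * ((N:ℝ) ^ p * Real.exp (-(b * (1 - r)))) := by gcongr
      _ = _ := by ring
  refine h1.trans ?_
  have hgi1 : IntegrableOn g (Set.Ioc 0 1) := hgi.mono_set (fun x hx => hx.1)
  have hgi2 : IntervalIntegrable g volume 0 1 :=
    (intervalIntegrable_iff_integrableOn_Ioc_of_le zero_le_one).mpr hgi1
  have hgi3 : IntervalIntegrable (fun r => g (1 - r)) volume 0 1 := by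
    have := hgi2.comp_sub_left 1
    simp only [sub_zero, sub_self] at this
    exact this.symm
  have hgi4 : IntegrableOn (fun r => g (1 - r)) (Set.Ioo 0 1) :=
    ((intervalIntegrable_iff_integrableOn_Ioc_of_le zero_le_one).mp hgi3).mono_set
      Set.Ioo_subset_Ioc_self
  rw [← ofReal_integral_eq_lintegral_ofReal (μ := volume.restrict (Set.Ioo (0:ℝ) 1))
    (f := fun r : ℝ => g (1 - r)) hgi4
    ((ae_restrict_iff' measurableSet_Ioo).mpr (Eventually.of_forall fun r hr =>
      hg0 _ (by linarith [hr.2])))]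
  apply ENNReal.ofReal_le_ofReal
  rw [← integral_Ioc_eq_integral_Ioo, ← intervalIntegral.integral_of_le zero_le_one,
    intervalIntegral.integral_comp_sub_left (fun t => g t) 1]
  simp only [sub_zero, sub_self]
  rw [intervalIntegral.integral_of_le zero_le_one]
  calc ∫ t in Set.Ioc 0 1, g t ≤ ∫ t in Set.Ioi 0, g t := by
        apply setIntegral_mono_set hgi
        · exact (ae_restrict_iff' measurableSet_Ioi).mpr (Eventually.of_forall fun t ht => hg0 t ht)
        · exact Eventually.of_forall fun x hx => hx.1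
    _ = (N:ℝ) ^ p * ((1 / b) ^ p * Real.Gamma p) := by
        simp only [hg]
        rw [integral_const_mul, Real.integral_rpow_mul_exp_neg_mul_Ioi hp0 hb0]
    _ = Cr p := by
        unfold Cr
        rw [← mul_assoc, ← Real.mul_rpow hN0.le (by positivity)]
        congr 2
        rw [hb]
        field_simp

end H731SI
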