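import Pool.Agent.H731_SI.StepEx

/-!
The sequence of polynomials.
-/

set_option autoImplicit false

namespace H731SI

open MeasureTheory Complex Filter Topology Metric H731Dp Polynomial
open scoped ENNReal

/-- the potential -/
noncomputable def Pt (h : ℂ[X]) : ℝ := ∫ θ in (-Real.pi)..Real.pi, √((h.eval (exp (θ * I))).re)

/-- the decrease -/
noncomputable def Aq (h c : ℂ[X]) : ℝ := ∫ θ in (-Real.pi)..Real.pi,
  ‖c.eval (exp (θ * I))‖ ^ 2 / ((h.eval (exp (θ * I))).re * √((h.eval (exp (θ * I))).re))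

theorem ss_le {m : ℕ} {y : ℝ} (hy : 0 < y) : ss m y ≤ y / 2 := by
  unfold ss
  rw [div_le_div_iff₀ (by positivity) (by norm_num)]
  have : 1 ≤ (1 + y) ^ m := one_le_pow₀ (by linarith)
  nlinarith

theorem ss_le_half {m : ℕ} (hm : 1 ≤ m) {y : ℝ} (hy : 0 < y) : ss m y ≤ 1 / 2 := by
  unfold ss
  rw [div_le_div_iff₀ (by positivity) (by norm_num)]
  have : 1 + y ≤ (1 + y) ^ m := by
    calc 1 + y = (1 + y) ^ 1 := (pow_one _).symm
      _ ≤ (1 + y) ^ m := pow_le_pow_right₀ (by linarith) hm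
  linarith

theorem norm_E (θ : ℝ) : ‖exp (θ * I)‖ = 1 := Complex.norm_exp_ofReal_mul_I θ

theorem Aq_nonneg (h c : ℂ[X]) (hpos : ∀ z : ℂ, ‖z‖ = 1 → 0 < (h.eval z).re) : 0 ≤ Aq h c := by
  unfold Aq
  apply intervalIntegral.integral_nonneg (by linarith [Real.pi_pos])
  intro θ _
  have := hpos _ (norm_E θ)
  positivity

theorem step_exists {p q : ℝ} (hp : 2 < p) (hq1 : 1 < q) (hq2 : q < 2) {m : ℕ} (hm1 : 1 ≤ m)
    (hm : 3 / 2 ≤ ((m : ℝ) - 1) * (p - 2)) (h : ℂ[X]) (hpos : ∀ z : ℂ, ‖z‖ = 1 → 0 < (h.eval z).re)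
    {ρ : ℝ} (hρ0 : 0 ≤ ρ) (hρ1 : ρ < 1) {ε : ℝ} (hε : 0 < ε) :
    ∃ (c : ℂ[X]) (N : ℕ), 1 ≤ N ∧ ρ ^ N ≤ ε ∧
      (∀ z : ℂ, ‖z‖ = 1 → ss m (h.eval z).re / 2 ≤ ‖c.eval z‖ ∧
        ‖c.eval z‖ ≤ ss m (h.eval z).re) ∧
      Dn p (fun z => (h + c * X ^ N).eval z) ≤ Dn p (fun z => h.eval z) +
        ENNReal.ofReal (ε + Cp p * Aq h c) ∧
      Dn q (fun z => exp (-((h + c * X ^ N).eval z))) ≤ Dn q (fun z => exp (-(h.eval z))) +
        ENNReal.ofReal (ε + Cp q * (K2 m * Aq h c)) ∧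
      Pt (h + c * X ^ N) ≤ Pt h - 1 / 32 * Aq h c + ε := by
  obtain ⟨c, hc⟩ := exists_c m h hpos
  have hpi : -Real.pi ≤ Real.pi := by linarith [Real.pi_pos]
  have hre : Continuous fun θ : ℝ => (h.eval (exp (θ * I))).re :=
    Complex.continuous_re.comp (by fun_prop)
  have hcc : Continuous fun θ : ℝ => c.eval (exp (θ * I)) := by fun_prop
  have hAc : Continuous fun θ : ℝ => ‖c.eval (exp (θ * I))‖ ^ 2 /
      ((h.eval (exp (θ * I))).re * √((h.eval (exp (θ * I))).re)) := by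
    apply Continuous.div (by fun_prop) (by fun_prop)
    intro θ
    have := hpos _ (norm_E θ)
    positivity
  have h1 : ∀ᶠ N : ℕ in atTop, ρ ^ N ≤ ε :=
    (tendsto_pow_atTop_nhds_zero_of_lt_one hρ0 hρ1).eventually_le_const hε
  have h2 := stepA (show 1 < p by linarith) h c hε
  have h3 := stepB hq1 h c hε
  have h4 := sqrt_step hre (fun θ => hpos _ (norm_E θ)) hcc (fun θ => by
    have := hpos _ (norm_E θ)
    exact (hc _ (norm_E θ)).2.trans ((ss_le this).trans (by linarith))) hε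
  obtain ⟨N, hN1, hN2, hN3, hN4, hN5⟩ :=
    (((eventually_ge_atTop 1).and (h1.and (h2.and (h3.and h4)))).exists)
  refine ⟨c, N, hN1, hN2, hc, hN3.trans ?_, hN4.trans ?_, ?_⟩
  · have hCp := Cp_nonneg (show 1 < p by linarith)
    refine add_le_add le_rfl (ENNReal.ofReal_le_ofReal (add_le_add le_rfl ?_))
    refine mul_le_mul_of_nonneg_left ?_ hCp
    unfold Aq
    apply intervalIntegral.integral_mono_on hpi
      (((hcc.norm).rpow_const (fun _ => Or.inr (by linarith))).intervalIntegrable _ _)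
      (hAc.intervalIntegrable _ _)
    intro θ _
    exact pw1 hp hm (hpos _ (norm_E θ)) (norm_nonneg _) (hc _ (norm_E θ)).2
  · have hCq := Cp_nonneg hq1
    refine add_le_add le_rfl (ENNReal.ofReal_le_ofReal (add_le_add le_rfl ?_))
    refine mul_le_mul_of_nonneg_left ?_ hCq
    unfold Aq
    rw [← intervalIntegral.integral_const_mul]
    have hcw : Continuous fun θ : ℝ => (‖c.eval (exp (θ * I))‖ *
          Real.exp (-(h.eval (exp (θ * I))).re + ‖c.eval (exp (θ * I))‖)) ^ q := by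
      apply Continuous.rpow_const _ (fun _ => Or.inr (by linarith))
      exact hcc.norm.mul (Real.continuous_exp.comp (hre.neg.add hcc.norm))
    apply intervalIntegral.integral_mono_on hpi (hcw.intervalIntegrable _ _)
      ((hAc.const_mul _).intervalIntegrable _ _)
    intro θ _
    have hy := hpos _ (norm_E θ)
    apply pw2 hq1 hq2 hm1 hy _ (hc _ (norm_E θ)).2
    have := (hc _ (norm_E θ)).1
    unfold ss at this
    rw [div_div] at this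
    convert this using 2
    ring
  · unfold Pt Aq
    refine le_trans (le_of_eq ?_) hN5
    apply intervalIntegral.integral_congr
    intro θ _
    simp only [eval_add, eval_mul, eval_pow, eval_X, Complex.add_re]
    rw [← Complex.exp_nat_mul, ← mul_assoc]

theorem new_pos {m : ℕ} {h c : ℂ[X]} (hpos : ∀ z : ℂ, ‖z‖ = 1 → 0 < (h.eval z).re)
    (hc : ∀ z : ℂ, ‖z‖ = 1 → ‖c.eval z‖ ≤ ss m (h.eval z).re) (N : ℕ) :
    ∀ z : ℂ, ‖z‖ = 1 → 0 < ((h + c * X ^ N).eval z).re := by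
  intro z hz
  simp only [eval_add, eval_mul, eval_pow, eval_X, Complex.add_re]
  have h1 := hpos z hz
  have h2 := hc z hz
  have h3 := ss_le (m := m) h1
  have h4 := (abs_le.mp (Complex.abs_re_le_norm (c.eval z * z ^ N))).1
  rw [norm_mul, norm_pow, hz, one_pow, mul_one] at h4
  linarith

theorem exists_rad (h : ℂ[X]) {R : ℝ} (hR : R < 1) {ε : ℝ} (hε : 0 < ε) :
    ∃ ρ : ℝ, R ≤ ρ ∧ 1 - ε ≤ ρ ∧ 0 < ρ ∧ ρ < 1 ∧ ∀ z : ℂ, ‖z‖ = 1 →
      ‖h.eval (ρ * z) - h.eval z‖ ≤ ε := by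
  have hu := (isCompact_closedBall (0:ℂ) 1).uniformContinuousOn_of_continuous
    (f := fun z => h.eval z) (by fun_prop)
  rw [Metric.uniformContinuousOn_iff] at hu
  obtain ⟨δ, hδ, hu⟩ := hu ε hε
  set ρ : ℝ := max (max R (1 - ε)) (max (1 - δ / 2) (1 / 2)) with hρ
  have h1 : R ≤ ρ := (le_max_left _ _).trans (le_max_left _ _)
  have h2 : 1 - ε ≤ ρ := (le_max_right _ _).trans (le_max_left _ _)
  have h3 : 1 - δ / 2 ≤ ρ := (le_max_left _ _).trans (le_max_right _ _)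
  have h4 : 1 / 2 ≤ ρ := (le_max_right _ _).trans (le_max_right _ _)
  have h5 : ρ < 1 := by
    rw [hρ]
    apply max_lt (max_lt hR (by linarith)) (max_lt (by linarith) (by norm_num))
  refine ⟨ρ, h1, h2, by linarith, h5, fun z hz => ?_⟩
  have hn : ‖(ρ:ℂ) * z‖ = ρ := by
    rw [norm_mul, hz, mul_one, Complex.norm_real, Real.norm_eq_abs, abs_of_nonneg (by linarith)]
  have := hu (ρ * z) (by rw [mem_closedBall_zero_iff, hn]; exact h5.le) z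
    (by rw [mem_closedBall_zero_iff, hz]) (by
      rw [dist_eq_norm, show (ρ:ℂ) * z - z = ((ρ - 1 : ℝ) : ℂ) * z by push_cast; ring, norm_mul, hz,
        mul_one, Complex.norm_real, Real.norm_eq_abs, abs_lt]
      constructor <;> linarith)
  rw [dist_eq_norm] at this
  exact this.le

/-- states -/
abbrev St := {h : ℂ[X] // ∀ z : ℂ, ‖z‖ = 1 → 0 < (h.eval z).re} × {ρ : ℝ // 0 ≤ ρ ∧ ρ < 1}

/-- the relation between consecutive states -/
def Rel (p q : ℝ) (m : ℕ) (n : ℕ) (s t : St) : Prop :=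
  ∃ (c : ℂ[X]) (N : ℕ), t.1.1 = s.1.1 + c * X ^ N ∧ 1 ≤ N ∧ s.2.1 ≤ t.2.1 ∧
    1 - (1 / 2) ^ n ≤ t.2.1 ∧ 0 < t.2.1 ∧ t.2.1 ^ N ≤ (1 / 2) ^ n ∧
    (∀ z : ℂ, ‖z‖ = 1 → ‖s.1.1.eval (t.2.1 * z) - s.1.1.eval z‖ ≤ (1 / 2) ^ n) ∧
    (∀ z : ℂ, ‖z‖ = 1 → ss m (s.1.1.eval z).re / 2 ≤ ‖c.eval z‖ ∧
        ‖c.eval z‖ ≤ ss m (s.1.1.eval z).re) ∧
    Dn p (fun z => t.1.1.eval z) ≤ Dn p (fun z => s.1.1.eval z) +
        ENNReal.ofReal ((1 / 2) ^ n + Cp p * Aq s.1.1 c) ∧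
    Dn q (fun z => exp (-(t.1.1.eval z))) ≤ Dn q (fun z => exp (-(s.1.1.eval z))) +
        ENNReal.ofReal ((1 / 2) ^ n + Cp q * (K2 m * Aq s.1.1 c)) ∧
    Pt t.1.1 ≤ Pt s.1.1 - 1 / 32 * Aq s.1.1 c + (1 / 2) ^ n

theorem exists_next {p q : ℝ} (hp : 2 < p) (hq1 : 1 < q) (hq2 : q < 2) {m : ℕ} (hm1 : 1 ≤ m)
    (hm : 3 / 2 ≤ ((m : ℝ) - 1) * (p - 2)) (n : ℕ) (s : St) : ∃ t : St, Rel p q m n s t := by
  have hε : (0:ℝ) < (1 / 2) ^ n := by positivity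
  obtain ⟨ρ, h1, h2, h3, h4, h5⟩ := exists_rad s.1.1 s.2.2.2 hε
  obtain ⟨c, N, k1, k2, k3, k4, k5, k6⟩ :=
    step_exists hp hq1 hq2 hm1 hm s.1.1 s.1.2 h3.le h4 hε
  refine ⟨(⟨s.1.1 + c * X ^ N, new_pos s.1.2 (fun z hz => (k3 z hz).2) N⟩, ⟨ρ, h3.le, h4⟩), c, N,
    rfl, k1, h1, h2, h3, k2, h5, k3, k4, k5, k6⟩

theorem exists_seq {p q : ℝ} (hp : 2 < p) (hq1 : 1 < q) (hq2 : q < 2) {m : ℕ} (hm1 : 1 ≤ m)
    (hm : 3 / 2 ≤ ((m : ℝ) - 1) * (p - 2)) : ∃ s : ℕ → St, (s 0).1.1 = 1 ∧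
      ∀ n, Rel p q m n (s n) (s (n + 1)) := by
  choose f hf using exists_next hp hq1 hq2 hm1 hm
  refine ⟨fun n => Nat.rec (⟨1, fun z _ => by simp⟩, ⟨0, le_rfl, one_pos⟩) (fun n s => f n s) n,
    rfl, fun n => hf n _⟩

end H731SI
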