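import Pool.Agent.H731_SI.Radial

/-!
Adding a high frequency term: the weighted integral of the derivative grows at most by a
multiple of the boundary integral.
-/

set_option autoImplicit false

namespace H731SI

open MeasureTheory Complex Filter Topology Metric H731Dp
open scoped ENNReal

/-- the constant of the one step estimate -/
noncomputable def Cp (p : ℝ) : ℝ := 2 ^ (p - 1) * Cr p

theorem Cp_nonneg {p : ℝ} (hp : 1 < p) : 0 ≤ Cp p := by
  unfold Cp
  have := Cr_nonneg hp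
  positivity

theorem annulus_small {A : ℝ} (hA : 0 ≤ A) {ε : ℝ} (hε : 0 < ε) : ∃ δ : ℝ, 0 < δ ∧
    ∀ ρ : ℝ, 1 - δ < ρ → ρ < 1 → 0 < ρ →
      ENNReal.ofReal A * volume (ball (0:ℂ) 1 \ ball 0 ρ) ≤ ENNReal.ofReal ε := by
  refine ⟨ε / (2 * Real.pi * (A + 1)), by positivity, fun ρ h1 h2 h0 => ?_⟩
  have hv : volume (ball (0:ℂ) 1 \ ball 0 ρ) = ENNReal.ofReal (Real.pi * (1 - ρ ^ 2)) := by
    rw [measure_sdiff (ball_subset_ball h2.le) measurableSet_ball.nullMeasurableSet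
      measure_ball_lt_top.ne, Complex.volume_ball, Complex.volume_ball]
    have hpi : (NNReal.pi : ℝ≥0∞) = ENNReal.ofReal Real.pi := by
      rw [ENNReal.ofReal, ← NNReal.coe_real_pi, Real.toNNReal_coe]
    rw [hpi, ← ENNReal.ofReal_pow (by norm_num), ← ENNReal.ofReal_pow h0.le,
      ← ENNReal.ofReal_mul (by positivity), ← ENNReal.ofReal_mul (by positivity),
      ← ENNReal.ofReal_sub _ (by positivity)]
    congr 1
    ring
  rw [hv, ← ENNReal.ofReal_mul hA]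
  apply ENNReal.ofReal_le_ofReal
  have h3 : 1 - ρ ^ 2 ≤ 2 * (ε / (2 * Real.pi * (A + 1))) := by nlinarith
  calc A * (Real.pi * (1 - ρ ^ 2)) ≤ (A + 1) * (Real.pi * (2 * (ε / (2 * Real.pi * (A + 1))))) := by
        have : 0 ≤ 1 - ρ ^ 2 := by nlinarith
        gcongr
        linarith
    _ = ε := by field_simp

theorem inner_part {p : ℝ} (hp : 1 < p) {G : ℕ → ℂ → ℂ} {G0 : ℂ → ℂ} {β : ℂ → ℝ} {K : ℝ}
    (hGm : ∀ N, Measurable (G N)) (hβ : Continuous β) (hβ0 : ∀ z, 0 ≤ β z) (hK : 0 ≤ K)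
    (hlim : ∀ z ∈ ball (0:ℂ) 1, Tendsto (fun N => G N z) atTop (𝓝 (G0 z)))
    (hbd : ∀ N, ∀ z ∈ ball (0:ℂ) 1, ‖G N z‖ ≤ K + N * ‖z‖ ^ (N - 1) * β z)
    {ρ : ℝ} (h0 : 0 < ρ) (h1 : ρ < 1) {ε : ℝ} (hε : 0 < ε) :
    ∀ᶠ N in atTop, ∫⁻ z in ball (0:ℂ) ρ, W p z * ‖G N z‖ₑ ^ p ≤
      J p (fun z => ‖G0 z‖ₑ ^ p) + ENNReal.ofReal ε := by
  obtain ⟨B, hB⟩ := (isCompact_closedBall (0:ℂ) 1).exists_bound_of_continuousOn hβ.continuousOn
  have hB0 : 0 ≤ B := (norm_nonneg _).trans (hB 0 (by simp))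
  have hsub : ball (0:ℂ) ρ ⊆ ball 0 1 := ball_subset_ball h1.le
  have hpow : ∀ᶠ N : ℕ in atTop, (N : ℝ) * ρ ^ (N - 1) ≤ 1 := by
    have h := tendsto_self_mul_const_pow_of_lt_one h0.le h1
    have h' : Tendsto (fun N : ℕ => (N : ℝ) * ρ ^ N / ρ) atTop (𝓝 (0 / ρ)) := h.div_const ρ
    rw [zero_div] at h'
    filter_upwards [h'.eventually_le_const one_pos, eventually_ge_atTop 1] with N hN hN1
    calc (N : ℝ) * ρ ^ (N - 1) = (N : ℝ) * ρ ^ N / ρ := by
          rw [eq_div_iff h0.ne', mul_assoc, ← pow_succ, Nat.sub_add_cancel hN1]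
      _ ≤ 1 := hN
  have hbound : ∀ᶠ N : ℕ in atTop, ∀ᵐ z ∂(volume.restrict (ball (0:ℂ) ρ)),
      W p z * ‖G N z‖ₑ ^ p ≤ ENNReal.ofReal ((K + B) ^ p) := by
    filter_upwards [hpow] with N hN
    refine (ae_restrict_iff' measurableSet_ball).mpr (Eventually.of_forall fun z hz => ?_)
    have hz1 := hsub hz
    have hz' : ‖z‖ ≤ ρ := (mem_ball_zero_iff.mp hz).le
    have hb : β z ≤ B := (le_abs_self _).trans (hB z (ball_subset_closedBall hz1))
    have h2 : ‖G N z‖ ≤ K + B := by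
      refine (hbd N z hz1).trans ?_
      have : (N:ℝ) * ‖z‖ ^ (N - 1) ≤ 1 := by
        refine le_trans ?_ hN
        gcongr
      have h3 : (N:ℝ) * ‖z‖ ^ (N - 1) * β z ≤ 1 * B := by
        apply mul_le_mul this hb (hβ0 z) zero_le_one
      linarith
    calc W p z * ‖G N z‖ₑ ^ p ≤ 1 * ENNReal.ofReal ((K + B) ^ p) := by
          gcongr
          · exact W_le_one hp.le hz1
          · rw [← ofReal_norm, ENNReal.ofReal_rpow_of_nonneg (norm_nonneg _) (by linarith)]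
            apply ENNReal.ofReal_le_ofReal
            exact Real.rpow_le_rpow (norm_nonneg _) h2 (by linarith)
      _ = _ := one_mul _
  have hconv := tendsto_lintegral_filter_of_dominated_convergence
    (μ := volume.restrict (ball (0:ℂ) ρ)) (l := atTop)
    (F := fun (N : ℕ) z => W p z * ‖G N z‖ₑ ^ p)
    (f := fun z => W p z * ‖G0 z‖ₑ ^ p) (fun _ => ENNReal.ofReal ((K + B) ^ p))
    (Eventually.of_forall fun N => (W_meas p).mul ((hGm N).enorm.pow_const p))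
    hbound (by
      rw [lintegral_const]
      exact ENNReal.mul_ne_top ENNReal.ofReal_ne_top
        (by rw [Measure.restrict_apply MeasurableSet.univ, Set.univ_inter]
            exact measure_ball_lt_top.ne)) (by
      refine (ae_restrict_iff' measurableSet_ball).mpr (Eventually.of_forall fun z hz => ?_)
      have h2 : Tendsto (fun N => ‖G N z‖ₑ ^ p) atTop (𝓝 (‖G0 z‖ₑ ^ p)) :=
        ((hlim z (hsub hz)).enorm).ennrpow_const p
      exact ENNReal.Tendsto.const_mul h2 (Or.inr (by unfold W; exact ENNReal.ofReal_ne_top)))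
  have hle : ∫⁻ z in ball (0:ℂ) ρ, W p z * ‖G0 z‖ₑ ^ p ≤ J p (fun z => ‖G0 z‖ₑ ^ p) :=
    lintegral_mono_set hsub
  have hfin : ∫⁻ z in ball (0:ℂ) ρ, W p z * ‖G0 z‖ₑ ^ p ≠ ⊤ := by
    have : ∫⁻ z in ball (0:ℂ) ρ, W p z * ‖G0 z‖ₑ ^ p ≤
        ENNReal.ofReal ((K + B) ^ p) * volume (ball (0:ℂ) ρ) := by
      refine le_of_tendsto hconv ?_
      filter_upwards [hbound] with N hN
      calc ∫⁻ z in ball (0:ℂ) ρ, W p z * ‖G N z‖ₑ ^ p
          ≤ ∫⁻ z in ball (0:ℂ) ρ, ENNReal.ofReal ((K + B) ^ p) := lintegral_mono_ae hN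
        _ = _ := by rw [lintegral_const, Measure.restrict_apply MeasurableSet.univ, Set.univ_inter]
    exact ne_top_of_le_ne_top (ENNReal.mul_ne_top ENNReal.ofReal_ne_top measure_ball_lt_top.ne) this
  have hev := hconv.eventually_le_const (u := (∫⁻ z in ball (0:ℂ) ρ, W p z * ‖G0 z‖ₑ ^ p) +
    ENNReal.ofReal ε) (ENNReal.lt_add_right hfin (by simpa using hε))
  filter_upwards [hev] with N hN
  exact hN.trans (by gcongr)

end H731SI
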