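import Pool.Agent.H731_SI.Step

/-!
Adding a high frequency term: the outer part and the one step estimate.
-/

set_option autoImplicit false

namespace H731SI

open MeasureTheory Complex Filter Topology Metric H731Dp
open scoped ENNReal

theorem outer_part {p : ℝ} (hp : 1 < p) {β : ℂ → ℝ} (hβ : Continuous β) (hβ0 : ∀ z, 0 ≤ β z)
    {ρ ε : ℝ} (hε : 0 ≤ ε)
    (hρ : ∀ r : ℝ, ρ ≤ r → r < 1 → ∀ θ : ℝ,
      β (r * exp (θ * I)) ^ p ≤ β (exp (θ * I)) ^ p + ε) {N : ℕ} (hN : 2 ≤ N) :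
    ∫⁻ z in ball (0:ℂ) 1 \ ball 0 ρ, W p z * ENNReal.ofReal ((N * ‖z‖ ^ (N - 1) * β z) ^ p) ≤
      ENNReal.ofReal (Cr p * ∫ θ in (-Real.pi)..Real.pi, (β (exp (θ * I)) ^ p + ε)) := by
  have hp0 : 0 < p := by linarith
  set g : ℂ → ℝ≥0∞ := fun z => W p z * ENNReal.ofReal ((N * ‖z‖ ^ (N - 1) * β z) ^ p) with hg
  have hgm : Measurable g := by
    refine (W_meas p).mul ?_
    have : Measurable β := hβ.measurable
    fun_prop
  set S : Set ℂ := {z | ρ ≤ ‖z‖} with hS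
  have hSm : MeasurableSet S := measurableSet_le measurable_const measurable_norm
  have h1 : ∫⁻ z in ball (0:ℂ) 1 \ ball 0 ρ, g z = ∫⁻ z in ball (0:ℂ) 1, S.indicator g z := by
    rw [lintegral_indicator hSm, Measure.restrict_restrict hSm]
    congr 2
    ext z
    simp only [hS, Set.mem_sdiff, mem_ball_zero_iff, not_lt, Set.mem_inter_iff, Set.mem_ofPred_eq]
    tauto
  rw [h1, polar_int (hgm.indicator hSm)]
  set b : ℝ → ℝ := fun θ => β (exp (θ * I)) ^ p + ε with hb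
  have hbc : Continuous b := by
    have h : Continuous fun θ : ℝ => β (exp (θ * I)) := hβ.comp (by fun_prop)
    exact (h.rpow_const (fun _ => Or.inr hp0.le)).add continuous_const
  have hb0 : ∀ θ, 0 ≤ b θ := fun θ => add_nonneg (Real.rpow_nonneg (hβ0 _) _) hε
  have hpi : -Real.pi ≤ Real.pi := by linarith [Real.pi_pos]
  have hbint : ∫⁻ θ in Set.Ioo (-Real.pi) Real.pi, ENNReal.ofReal (b θ) =
      ENNReal.ofReal (∫ θ in (-Real.pi)..Real.pi, b θ) := by
    rw [← ofReal_integral_eq_lintegral_ofReal (μ := volume.restrict (Set.Ioo (-Real.pi) Real.pi))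
      (f := b) ((hbc.integrableOn_Icc).mono_set Set.Ioo_subset_Icc_self)
      (Eventually.of_forall hb0), ← integral_Ioc_eq_integral_Ioo,
      ← intervalIntegral.integral_of_le hpi]
  have h2 : ∀ r ∈ Set.Ioo (0:ℝ) 1, (∫⁻ θ in Set.Ioo (-Real.pi) Real.pi,
      ENNReal.ofReal r * S.indicator g (r * exp (θ * I))) ≤
      ENNReal.ofReal ((1 - r) ^ (p - 1) * ((N : ℝ) * r ^ (N - 1)) ^ p) *
        ENNReal.ofReal (∫ θ in (-Real.pi)..Real.pi, b θ) := by
    intro r hr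
    rw [← hbint, ← lintegral_const_mul _ (by fun_prop)]
    refine lintegral_mono fun θ => ?_
    have hnorm : ‖(r:ℂ) * exp (θ * I)‖ = r := by
      rw [norm_mul, Complex.norm_exp_ofReal_mul_I, mul_one, Complex.norm_real,
        Real.norm_eq_abs, abs_of_nonneg hr.1.le]
    by_cases hrρ : ρ ≤ r
    · have hmem : (r:ℂ) * exp (θ * I) ∈ S := by simp only [hS, Set.mem_ofPred_eq, hnorm]; exact hrρ
      rw [Set.indicator_of_mem hmem]
      simp only [hg, W, hnorm]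
      have h4 : (0:ℝ) ≤ (1 - r) ^ (p - 1) := Real.rpow_nonneg (by linarith [hr.2]) _
      have h5 : (0:ℝ) ≤ (N:ℝ) * r ^ (N - 1) := by have := hr.1; positivity
      rw [Real.mul_rpow h5 (hβ0 _), ← ENNReal.ofReal_mul h4, ← ENNReal.ofReal_mul hr.1.le,
        ← ENNReal.ofReal_mul (by positivity)]
      apply ENNReal.ofReal_le_ofReal
      have h6 := hρ r hrρ hr.2 θ
      have h7 : (0:ℝ) ≤ β (r * exp (θ * I)) ^ p := Real.rpow_nonneg (hβ0 _) _
      have h8 : (0:ℝ) ≤ ((N:ℝ) * r ^ (N - 1)) ^ p := by positivity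
      calc r * ((1 - r) ^ (p - 1) * (((N:ℝ) * r ^ (N - 1)) ^ p * β (r * exp (θ * I)) ^ p))
          ≤ 1 * ((1 - r) ^ (p - 1) * (((N:ℝ) * r ^ (N - 1)) ^ p * β (r * exp (θ * I)) ^ p)) := by
            apply mul_le_mul_of_nonneg_right hr.2.le (by positivity)
        _ = ((1 - r) ^ (p - 1) * ((N:ℝ) * r ^ (N - 1)) ^ p) * β (r * exp (θ * I)) ^ p := by ring
        _ ≤ ((1 - r) ^ (p - 1) * ((N:ℝ) * r ^ (N - 1)) ^ p) * b θ := by
            apply mul_le_mul_of_nonneg_left h6 (by positivity)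
    · have hmem : (r:ℂ) * exp (θ * I) ∉ S := by
        simp only [hS, Set.mem_ofPred_eq, hnorm]; exact hrρ
      rw [Set.indicator_of_notMem hmem, mul_zero]
      exact zero_le
  calc ∫⁻ r in Set.Ioo (0:ℝ) 1, ∫⁻ θ in Set.Ioo (-Real.pi) Real.pi,
      ENNReal.ofReal r * S.indicator g (r * exp (θ * I))
      ≤ ∫⁻ r in Set.Ioo (0:ℝ) 1, ENNReal.ofReal ((1 - r) ^ (p - 1) *
          ((N : ℝ) * r ^ (N - 1)) ^ p) * ENNReal.ofReal (∫ θ in (-Real.pi)..Real.pi, b θ) :=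
        setLIntegral_mono' measurableSet_Ioo h2
    _ = (∫⁻ r in Set.Ioo (0:ℝ) 1, ENNReal.ofReal ((1 - r) ^ (p - 1) *
          ((N : ℝ) * r ^ (N - 1)) ^ p)) * ENNReal.ofReal (∫ θ in (-Real.pi)..Real.pi, b θ) := by
        rw [lintegral_mul_const' _ _ ENNReal.ofReal_ne_top]
    _ ≤ ENNReal.ofReal (Cr p) * ENNReal.ofReal (∫ θ in (-Real.pi)..Real.pi, b θ) := by
        gcongr
        exact radial_ker hp hN
    _ = _ := by rw [← ENNReal.ofReal_mul (Cr_nonneg hp)]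

theorem near_circle {β : ℂ → ℝ} (hβ : Continuous β) {p : ℝ} (hp : 0 < p) {ε : ℝ} (hε : 0 < ε) :
    ∃ δ : ℝ, 0 < δ ∧ ∀ r : ℝ, 1 - δ < r → 0 ≤ r → r ≤ 1 → ∀ θ : ℝ,
      β (r * exp (θ * I)) ^ p ≤ β (exp (θ * I)) ^ p + ε := by
  have hc : Continuous fun z => β z ^ p := hβ.rpow_const (fun _ => Or.inr hp.le)
  have hu := (isCompact_closedBall (0:ℂ) 1).uniformContinuousOn_of_continuous hc.continuousOn
  rw [Metric.uniformContinuousOn_iff] at hu
  obtain ⟨δ, hδ, h⟩ := hu ε hε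
  refine ⟨δ, hδ, fun r h1 h0 h2 θ => ?_⟩
  have hn1 : ‖exp (θ * I)‖ = 1 := Complex.norm_exp_ofReal_mul_I θ
  have hn2 : ‖(r:ℂ) * exp (θ * I)‖ = r := by
    rw [norm_mul, hn1, mul_one, Complex.norm_real, Real.norm_eq_abs, abs_of_nonneg h0]
  have := h (r * exp (θ * I)) (by rw [mem_closedBall_zero_iff, hn2]; exact h2) (exp (θ * I))
    (by rw [mem_closedBall_zero_iff, hn1]) (by
      rw [dist_eq_norm, show (r:ℂ) * exp (θ * I) - exp (θ * I) = ((r - 1 : ℝ) : ℂ) * exp (θ * I) by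
        push_cast; ring, norm_mul, hn1, mul_one, Complex.norm_real, Real.norm_eq_abs, abs_lt]
      constructor <;> linarith)
  rw [Real.dist_eq, abs_lt] at this
  linarith [this.2]

/-- **One step.** -/
theorem one_step {p : ℝ} (hp : 1 < p) {G : ℕ → ℂ → ℂ} {G0 : ℂ → ℂ} {β : ℂ → ℝ} {K : ℝ}
    (hGm : ∀ N, Measurable (G N)) (hβ : Continuous β) (hβ0 : ∀ z, 0 ≤ β z) (hK : 0 ≤ K)
    (hlim : ∀ z ∈ ball (0:ℂ) 1, Tendsto (fun N => G N z) atTop (𝓝 (G0 z)))
    (hbd : ∀ N, ∀ z ∈ ball (0:ℂ) 1, ‖G N z‖ ≤ K + N * ‖z‖ ^ (N - 1) * β z)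
    {ε : ℝ} (hε : 0 < ε) :
    ∀ᶠ N in atTop, J p (fun z => ‖G N z‖ₑ ^ p) ≤ J p (fun z => ‖G0 z‖ₑ ^ p) +
      ENNReal.ofReal (ε + Cp p * ∫ θ in (-Real.pi)..Real.pi, β (exp (θ * I)) ^ p) := by
  have hp0 : 0 < p := by linarith
  set A : ℝ := 2 ^ (p - 1) * K ^ p with hA
  have hA0 : 0 ≤ A := by positivity
  set ε1 : ℝ := ε / (3 * (Cp p + 1) * (2 * Real.pi)) with hε1
  have hC0 := Cp_nonneg hp
  have hε1' : 0 < ε1 := by positivity
  obtain ⟨δ1, hδ1, h1⟩ := annulus_small hA0 (show 0 < ε / 3 by positivity)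
  obtain ⟨δ2, hδ2, h2⟩ := near_circle hβ hp0 hε1'
  set δ : ℝ := min (min δ1 δ2) 1 / 2 with hδ
  have hδ0 : 0 < δ := by positivity
  have hδ1' : δ < δ1 := by
    have : min (min δ1 δ2) 1 ≤ δ1 := (min_le_left _ _).trans (min_le_left _ _)
    linarith
  have hδ2' : δ < δ2 := by
    have : min (min δ1 δ2) 1 ≤ δ2 := (min_le_left _ _).trans (min_le_right _ _)
    linarith
  have hδ3 : δ < 1 := by
    have : min (min δ1 δ2) 1 ≤ 1 := min_le_right _ _
    linarith
  set ρ : ℝ := 1 - δ with hρ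
  have hρ0 : 0 < ρ := by linarith
  have hρ1 : ρ < 1 := by linarith
  have hann := h1 ρ (by linarith) hρ1 hρ0
  have hcirc : ∀ r : ℝ, ρ ≤ r → r < 1 → ∀ θ : ℝ,
      β (r * exp (θ * I)) ^ p ≤ β (exp (θ * I)) ^ p + ε1 := fun r hr hr1 θ =>
    h2 r (by linarith) (by linarith) hr1.le θ
  filter_upwards [inner_part hp hGm hβ hβ0 hK hlim hbd hρ0 hρ1 (show 0 < ε / 3 by positivity),
    eventually_ge_atTop 2] with N hN hN2
  have hout := outer_part hp hβ hβ0 hε1'.le hcirc hN2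
  have hsplit : J p (fun z => ‖G N z‖ₑ ^ p) = (∫⁻ z in ball (0:ℂ) ρ, W p z * ‖G N z‖ₑ ^ p) +
      ∫⁻ z in ball (0:ℂ) 1 \ ball 0 ρ, W p z * ‖G N z‖ₑ ^ p := by
    unfold J
    rw [← lintegral_union (measurableSet_ball.diff measurableSet_ball) Set.disjoint_sdiff_right]
    congr 2
    exact (Set.union_sdiff_cancel (ball_subset_ball hρ1.le)).symm
  have hann2 : ∫⁻ z in ball (0:ℂ) 1 \ ball 0 ρ, W p z * ‖G N z‖ₑ ^ p ≤
      ENNReal.ofReal (ε / 3) + ENNReal.ofReal (2 ^ (p - 1)) *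
        ∫⁻ z in ball (0:ℂ) 1 \ ball 0 ρ, W p z *
          ENNReal.ofReal ((N * ‖z‖ ^ (N - 1) * β z) ^ p) := by
    have hpt : ∀ z ∈ ball (0:ℂ) 1 \ ball 0 ρ, W p z * ‖G N z‖ₑ ^ p ≤ ENNReal.ofReal A +
        ENNReal.ofReal (2 ^ (p - 1)) * (W p z *
          ENNReal.ofReal ((N * ‖z‖ ^ (N - 1) * β z) ^ p)) := by
      intro z hz
      have hb := hbd N z hz.1
      have hnn : 0 ≤ (N:ℝ) * ‖z‖ ^ (N - 1) * β z := by have := hβ0 z; positivity
      have h3 : ‖G N z‖ₑ ^ p ≤ ENNReal.ofReal (2 ^ (p - 1)) * (ENNReal.ofReal (K ^ p) +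
          ENNReal.ofReal ((N * ‖z‖ ^ (N - 1) * β z) ^ p)) := by
        rw [← ofReal_norm]
        calc ENNReal.ofReal ‖G N z‖ ^ p
            ≤ (ENNReal.ofReal K + ENNReal.ofReal (N * ‖z‖ ^ (N - 1) * β z)) ^ p := by
              gcongr
              rw [← ENNReal.ofReal_add hK hnn]
              exact ENNReal.ofReal_le_ofReal hb
          _ ≤ 2 ^ (p - 1) * (ENNReal.ofReal K ^ p +
              ENNReal.ofReal (N * ‖z‖ ^ (N - 1) * β z) ^ p) := add_rpow hp.le _ _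
          _ = _ := by
              have e2 : (2:ℝ≥0∞) ^ (p - 1) = ENNReal.ofReal (2 ^ (p - 1)) := by
                rw [← ENNReal.ofReal_rpow_of_nonneg (by norm_num : (0:ℝ) ≤ 2) (by linarith),
                  ENNReal.ofReal_ofNat]
              rw [ENNReal.ofReal_rpow_of_nonneg hK hp0.le, ENNReal.ofReal_rpow_of_nonneg hnn hp0.le,
                e2]
      calc W p z * ‖G N z‖ₑ ^ p ≤ W p z * (ENNReal.ofReal (2 ^ (p - 1)) * (ENNReal.ofReal (K ^ p) +
            ENNReal.ofReal ((N * ‖z‖ ^ (N - 1) * β z) ^ p))) := by gcongr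
        _ = W p z * ENNReal.ofReal A + ENNReal.ofReal (2 ^ (p - 1)) * (W p z *
            ENNReal.ofReal ((N * ‖z‖ ^ (N - 1) * β z) ^ p)) := by
            rw [hA, ENNReal.ofReal_mul (by positivity)]
            ring
        _ ≤ 1 * ENNReal.ofReal A + ENNReal.ofReal (2 ^ (p - 1)) * (W p z *
            ENNReal.ofReal ((N * ‖z‖ ^ (N - 1) * β z) ^ p)) := by
            gcongr
            exact W_le_one hp.le hz.1
        _ = _ := by rw [one_mul]
    have hβm : Measurable β := hβ.measurable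
    have hWm := W_meas p
    calc ∫⁻ z in ball (0:ℂ) 1 \ ball 0 ρ, W p z * ‖G N z‖ₑ ^ p
        ≤ ∫⁻ z in ball (0:ℂ) 1 \ ball 0 ρ, (ENNReal.ofReal A +
          ENNReal.ofReal (2 ^ (p - 1)) * (W p z *
            ENNReal.ofReal ((N * ‖z‖ ^ (N - 1) * β z) ^ p))) :=
          setLIntegral_mono' (measurableSet_ball.diff measurableSet_ball) hpt
      _ = ENNReal.ofReal A * volume (ball (0:ℂ) 1 \ ball 0 ρ) + ENNReal.ofReal (2 ^ (p - 1)) *
          ∫⁻ z in ball (0:ℂ) 1 \ ball 0 ρ, W p z *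
            ENNReal.ofReal ((N * ‖z‖ ^ (N - 1) * β z) ^ p) := by
          rw [lintegral_add_left measurable_const, lintegral_const,
            Measure.restrict_apply MeasurableSet.univ, Set.univ_inter,
            lintegral_const_mul' _ _ ENNReal.ofReal_ne_top]
      _ ≤ _ := by gcongr
  have hint : ∫ θ in (-Real.pi)..Real.pi, (β (exp (θ * I)) ^ p + ε1) =
      (∫ θ in (-Real.pi)..Real.pi, β (exp (θ * I)) ^ p) + 2 * Real.pi * ε1 := by
    have h : Continuous fun θ : ℝ => β (exp (θ * I)) ^ p :=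
      (hβ.comp (by fun_prop)).rpow_const (fun _ => Or.inr hp0.le)
    rw [intervalIntegral.integral_add (h.intervalIntegrable _ _)
      (continuous_const.intervalIntegrable _ _), intervalIntegral.integral_const, smul_eq_mul]
    ring
  rw [hsplit]
  set X : ℝ := ∫ θ in (-Real.pi)..Real.pi, β (exp (θ * I)) ^ p with hX
  have hX0 : 0 ≤ X := intervalIntegral.integral_nonneg (by linarith [Real.pi_pos])
    (fun θ _ => Real.rpow_nonneg (hβ0 _) _)
  have hfin : Cp p * (X + 2 * Real.pi * ε1) ≤ Cp p * X + ε / 3 := by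
    have : Cp p * (2 * Real.pi * ε1) ≤ ε / 3 := by
      calc Cp p * (2 * Real.pi * ε1) ≤ (Cp p + 1) * (2 * Real.pi * ε1) := by
            gcongr
            linarith
        _ = ε / 3 := by rw [hε1]; field_simp
    linarith
  calc _ ≤ (J p (fun z => ‖G0 z‖ₑ ^ p) + ENNReal.ofReal (ε / 3)) + (ENNReal.ofReal (ε / 3) +
        ENNReal.ofReal (2 ^ (p - 1)) * ENNReal.ofReal (Cr p * (X + 2 * Real.pi * ε1))) := by
        rw [hint] at hout
        gcongr
        exact hann2.trans (by gcongr)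
    _ = J p (fun z => ‖G0 z‖ₑ ^ p) + ENNReal.ofReal (ε / 3 + (ε / 3 +
        Cp p * (X + 2 * Real.pi * ε1))) := by
        have hCr := Cr_nonneg hp
        have e : ENNReal.ofReal (2 ^ (p - 1)) * ENNReal.ofReal (Cr p * (X + 2 * Real.pi * ε1)) =
            ENNReal.ofReal (Cp p * (X + 2 * Real.pi * ε1)) := by
          rw [← ENNReal.ofReal_mul (by positivity)]
          unfold Cp
          congr 1
          ring
        rw [e, add_assoc, ← ENNReal.ofReal_add (by positivity) (by positivity),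
          ← ENNReal.ofReal_add (by positivity) (by positivity)]
    _ ≤ _ := by
        refine add_le_add le_rfl (ENNReal.ofReal_le_ofReal ?_)
        linarith

end H731SI
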