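import Pool.Agent.H731_SI.Step2
import Pool.Agent.H731_SI.Lyap
import Pool.Agent.H731_SI.Approx
import Pool.Agent.H731_SI.Pw

/-!
Existence of one step of the construction.
-/

set_option autoImplicit false

namespace H731SI

open MeasureTheory Complex Filter Topology Metric H731Dp Polynomial
open scoped ENNReal

/-- the derivative of `h + c X^N` -/
noncomputable def GN (h c : ℂ[X]) (N : ℕ) (z : ℂ) : ℂ :=
  (derivative h).eval z + (derivative c).eval z * z ^ N + c.eval z * (N * z ^ (N - 1))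

theorem GN_eq (h c : ℂ[X]) (N : ℕ) (z : ℂ) : (derivative (h + c * X ^ N)).eval z = GN h c N z := by
  unfold GN
  simp only [derivative_add, derivative_mul, derivative_X_pow, eval_add, eval_mul, eval_pow,
    eval_X, eval_natCast, map_natCast]
  ring

theorem GN_meas (h c : ℂ[X]) (N : ℕ) : Measurable (GN h c N) := by
  apply Continuous.measurable
  unfold GN
  fun_prop

theorem GN_tendsto (h c : ℂ[X]) {z : ℂ} (hz : z ∈ ball (0:ℂ) 1) :
    Tendsto (fun N => GN h c N z) atTop (𝓝 ((derivative h).eval z)) := by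
  have hz1 : ‖z‖ < 1 := mem_ball_zero_iff.mp hz
  have h1 : Tendsto (fun N : ℕ => z ^ N) atTop (𝓝 0) := tendsto_pow_atTop_nhds_zero_of_norm_lt_one hz1
  have h2 : Tendsto (fun N : ℕ => (N : ℂ) * z ^ (N - 1)) atTop (𝓝 0) := by
    rw [← tendsto_add_atTop_iff_nat 1]
    have h3 := tendsto_self_mul_const_pow_of_lt_one (norm_nonneg z) hz1
    have h4 : Tendsto (fun N : ℕ => ‖z‖ ^ N) atTop (𝓝 0) :=
      tendsto_pow_atTop_nhds_zero_of_lt_one (norm_nonneg z) hz1
    have h5 := h3.add h4
    rw [add_zero] at h5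
    apply squeeze_zero_norm _ h5
    intro N
    rw [Nat.add_sub_cancel, norm_mul, norm_pow]
    have : ‖((N + 1 : ℕ) : ℂ)‖ = N + 1 := by
      rw [Complex.norm_natCast]
      push_cast
      rfl
    rw [this]
    linarith
  have := (tendsto_const_nhds (x := (derivative h).eval z)).add
    ((h1.const_mul ((derivative c).eval z)).add (h2.const_mul (c.eval z)))
  simp only [mul_zero, add_zero] at this
  refine this.congr fun N => ?_
  unfold GN
  ring

theorem GN_bound (h c : ℂ[X]) : ∃ K : ℝ, 0 ≤ K ∧ ∀ N : ℕ, ∀ z ∈ ball (0:ℂ) 1,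
    ‖GN h c N z‖ ≤ K + N * ‖z‖ ^ (N - 1) * ‖c.eval z‖ := by
  obtain ⟨K1, hK1⟩ := (isCompact_closedBall (0:ℂ) 1).exists_bound_of_continuousOn
    (f := fun z => (derivative h).eval z) (by fun_prop)
  obtain ⟨K2, hK2⟩ := (isCompact_closedBall (0:ℂ) 1).exists_bound_of_continuousOn
    (f := fun z => (derivative c).eval z) (by fun_prop)
  have h10 : 0 ≤ K1 := (norm_nonneg _).trans (hK1 0 (by simp))
  have h20 : 0 ≤ K2 := (norm_nonneg _).trans (hK2 0 (by simp))
  refine ⟨K1 + K2, by positivity, fun N z hz => ?_⟩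
  have hz1 : ‖z‖ ≤ 1 := (mem_ball_zero_iff.mp hz).le
  have hzc := ball_subset_closedBall hz
  unfold GN
  refine (norm_add_le _ _).trans ?_
  have e1 : ‖(derivative h).eval z + (derivative c).eval z * z ^ N‖ ≤ K1 + K2 := by
    refine (norm_add_le _ _).trans (add_le_add (hK1 z hzc) ?_)
    rw [norm_mul, norm_pow]
    calc ‖(derivative c).eval z‖ * ‖z‖ ^ N ≤ K2 * 1 := by
          apply mul_le_mul (hK2 z hzc) (pow_le_one₀ (norm_nonneg _) hz1) (by positivity) h20
      _ = K2 := mul_one _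
  have e2 : ‖c.eval z * (N * z ^ (N - 1))‖ = N * ‖z‖ ^ (N - 1) * ‖c.eval z‖ := by
    rw [norm_mul, norm_mul, norm_pow, Complex.norm_natCast]
    ring
  rw [e2]
  linarith

/-- the functional `D` -/
noncomputable def Dn (p : ℝ) (F : ℂ → ℂ) : ℝ≥0∞ := J p (fun z => ‖deriv F z‖ₑ ^ p)

theorem stepA {p : ℝ} (hp : 1 < p) (h c : ℂ[X]) {ε : ℝ} (hε : 0 < ε) :
    ∀ᶠ N : ℕ in atTop, Dn p (fun z => (h + c * X ^ N).eval z) ≤ Dn p (fun z => h.eval z) +
      ENNReal.ofReal (ε + Cp p * ∫ θ in (-Real.pi)..Real.pi, ‖c.eval (exp (θ * I))‖ ^ p) := by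
  obtain ⟨K, hK, hb⟩ := GN_bound h c
  have := one_step hp (G := GN h c) (G0 := fun z => (derivative h).eval z)
    (β := fun z => ‖c.eval z‖) (K := K) (GN_meas h c) (by fun_prop) (fun z => norm_nonneg _) hK
    (fun z hz => GN_tendsto h c hz) hb hε
  filter_upwards [this] with N hN
  unfold Dn
  have e1 : (fun z => ‖deriv (fun z => (h + c * X ^ N).eval z) z‖ₑ ^ p) =
      fun z => ‖GN h c N z‖ₑ ^ p := by
    funext z
    rw [Polynomial.deriv, GN_eq]
  have e2 : (fun z => ‖deriv (fun z => h.eval z) z‖ₑ ^ p) =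
      fun z => ‖(derivative h).eval z‖ₑ ^ p := by
    funext z
    rw [Polynomial.deriv]
  rw [e1, e2]
  exact hN

theorem deriv_exp_neg (P : ℂ[X]) (z : ℂ) :
    deriv (fun z => exp (-(P.eval z))) z = -((derivative P).eval z) * exp (-(P.eval z)) := by
  have h1 : HasDerivAt (fun z => -(P.eval z)) (-((derivative P).eval z)) z := (P.hasDerivAt z).neg
  rw [h1.cexp.deriv]
  ring

theorem stepB {q : ℝ} (hq : 1 < q) (h c : ℂ[X]) {ε : ℝ} (hε : 0 < ε) :
    ∀ᶠ N : ℕ in atTop, Dn q (fun z => exp (-((h + c * X ^ N).eval z))) ≤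
      Dn q (fun z => exp (-(h.eval z))) + ENNReal.ofReal (ε + Cp q *
        ∫ θ in (-Real.pi)..Real.pi, (‖c.eval (exp (θ * I))‖ *
          Real.exp (-(h.eval (exp (θ * I))).re + ‖c.eval (exp (θ * I))‖)) ^ q) := by
  obtain ⟨K, hK, hb⟩ := GN_bound h c
  set w : ℂ → ℝ := fun z => Real.exp (-(h.eval z).re + ‖c.eval z‖) with hw
  have hwc : Continuous w := by
    simp only [hw]
    apply Real.continuous_exp.comp
    apply Continuous.add
    · exact (Complex.continuous_re.comp (by fun_prop)).neg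
    · fun_prop
  obtain ⟨B, hB⟩ := (isCompact_closedBall (0:ℂ) 1).exists_bound_of_continuousOn hwc.continuousOn
  have hB0 : 0 ≤ B := (norm_nonneg _).trans (hB 0 (by simp))
  have := one_step hq (G := fun N z => -(GN h c N z) * exp (-((h + c * X ^ N).eval z)))
    (G0 := fun z => -((derivative h).eval z) * exp (-(h.eval z)))
    (β := fun z => ‖c.eval z‖ * w z) (K := K * B)
    (fun N => (GN_meas h c N).neg.mul (by fun_prop))
    (by fun_prop) (fun z => mul_nonneg (norm_nonneg _) (Real.exp_pos _).le) (by positivity)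
    (fun z hz => by
      apply (GN_tendsto h c hz).neg.mul
      apply (Complex.continuous_exp.tendsto _).comp
      apply Tendsto.neg
      have h1 : Tendsto (fun N : ℕ => z ^ N) atTop (𝓝 0) :=
        tendsto_pow_atTop_nhds_zero_of_norm_lt_one (mem_ball_zero_iff.mp hz)
      have := (tendsto_const_nhds (x := h.eval z)).add (h1.const_mul (c.eval z))
      simp only [mul_zero, add_zero] at this
      refine this.congr fun N => ?_
      simp)
    (fun N z hz => by
      have hzc := ball_subset_closedBall hz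
      have hz1 : ‖z‖ ≤ 1 := (mem_ball_zero_iff.mp hz).le
      have h1 : ‖exp (-((h + c * X ^ N).eval z))‖ ≤ w z := by
        rw [Complex.norm_exp]
        apply Real.exp_le_exp.mpr
        simp only [eval_add, eval_mul, eval_pow, eval_X, Complex.neg_re, Complex.add_re]
        have h2 : -(c.eval z * z ^ N).re ≤ ‖c.eval z‖ := by
          have h3 := (abs_le.mp (Complex.abs_re_le_norm (c.eval z * z ^ N))).1
          have h4 : ‖c.eval z * z ^ N‖ ≤ ‖c.eval z‖ := by
            rw [norm_mul, norm_pow]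
            calc ‖c.eval z‖ * ‖z‖ ^ N ≤ ‖c.eval z‖ * 1 := by
                  gcongr
                  exact pow_le_one₀ (norm_nonneg _) hz1
              _ = _ := mul_one _
          linarith
        linarith
      have h5 : w z ≤ B := (le_abs_self _).trans (hB z hzc)
      have hw0 : 0 ≤ w z := (Real.exp_pos _).le
      rw [norm_mul, norm_neg]
      calc ‖GN h c N z‖ * ‖exp (-((h + c * X ^ N).eval z))‖
          ≤ (K + N * ‖z‖ ^ (N - 1) * ‖c.eval z‖) * w z :=
            mul_le_mul (hb N z hz) h1 (norm_nonneg _) (by positivity)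
        _ = K * w z + N * ‖z‖ ^ (N - 1) * (‖c.eval z‖ * w z) := by ring
        _ ≤ K * B + N * ‖z‖ ^ (N - 1) * (‖c.eval z‖ * w z) := by gcongr)
    hε
  filter_upwards [this] with N hN
  unfold Dn
  have e1 : (fun z => ‖deriv (fun z => exp (-((h + c * X ^ N).eval z))) z‖ₑ ^ q) =
      fun z => ‖-(GN h c N z) * exp (-((h + c * X ^ N).eval z))‖ₑ ^ q := by
    funext z
    rw [deriv_exp_neg, GN_eq]
  have e2 : (fun z => ‖deriv (fun z => exp (-(h.eval z))) z‖ₑ ^ q) =
      fun z => ‖-((derivative h).eval z) * exp (-(h.eval z))‖ₑ ^ q := by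
    funext z
    rw [deriv_exp_neg]
  rw [e1, e2]
  exact hN

/-- the step size -/
noncomputable def ss (m : ℕ) (y : ℝ) : ℝ := y / (2 * (1 + y) ^ m)

theorem exists_c (m : ℕ) (h : ℂ[X]) (hpos : ∀ z : ℂ, ‖z‖ = 1 → 0 < (h.eval z).re) :
    ∃ c : ℂ[X], ∀ z : ℂ, ‖z‖ = 1 → ss m (h.eval z).re / 2 ≤ ‖c.eval z‖ ∧
      ‖c.eval z‖ ≤ ss m (h.eval z).re := by
  have hre : Continuous fun z => (h.eval z).re := Complex.continuous_re.comp (by fun_prop)
  have hs : ContinuousOn (fun z => ss m (h.eval z).re) (sphere (0:ℂ) 1) := by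
    unfold ss
    apply ContinuousOn.div hre.continuousOn (by fun_prop)
    intro z hz
    have := hpos z (mem_sphere_zero_iff_norm.mp hz)
    positivity
  have hsp : ∀ z ∈ sphere (0:ℂ) 1, 0 < ss m (h.eval z).re := by
    intro z hz
    have := hpos z (mem_sphere_zero_iff_norm.mp hz)
    unfold ss
    positivity
  obtain ⟨z0, hz0, hmin⟩ := (isCompact_sphere (0:ℂ) 1).exists_isMinOn
    (NormedSpace.sphere_nonempty.mpr zero_le_one) hs
  have hδ := hsp z0 hz0
  obtain ⟨c, hc⟩ := exists_poly (g := fun z => |3 / 4 * ss m (h.eval z).re|)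
    (by exact (hs.const_smul (3/4 : ℝ)).abs) (fun z => abs_nonneg _)
    (show 0 < ss m (h.eval z0).re / 4 by positivity)
  refine ⟨c, fun z hz => ?_⟩
  have hzs : z ∈ sphere (0:ℂ) 1 := mem_sphere_zero_iff_norm.mpr hz
  have h1 := hc z hz
  have h2 : ss m (h.eval z0).re ≤ ss m (h.eval z).re := hmin hzs
  have h3 := hsp z hzs
  rw [abs_of_pos (show 0 < 3 / 4 * ss m (h.eval z).re by positivity)] at h1
  obtain ⟨h4, h5⟩ := abs_le.mp h1
  constructor <;> linarith

end H731SI
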